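import Mathlib

/-!
# Fréchet algebras and Fréchet modules
-/

open Filter Topology Uniformity

universe u v

namespace Pool.Agent.V1192.Fre

/-- A Fréchet space: a complete metrizable locally convex topological vector space over `ℂ`. -/
structure IsFrechet (E : Type u) [AddCommGroup E] [Module ℂ E] [UniformSpace E] : Prop where
  uniform : IsUniformAddGroup E
  smul : ContinuousSMul ℂ E
  hausdorff : T2Space E
  complete : CompleteSpace E
  metrizable : (𝓤 E).IsCountablyGenerated
  convex : ∀ U ∈ 𝓝 (0 : E), ∃ V ∈ 𝓝 (0 : E), V ⊆ U ∧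
    ∀ x ∈ V, ∀ y ∈ V, ∀ a b : ℂ, ‖a‖ + ‖b‖ ≤ 1 → a • x + b • y ∈ V

/-- A bundled Fréchet space. -/
structure FreSp : Type (u + 1) where
  E : Type u
  [grp : AddCommGroup E]
  [mod : Module ℂ E]
  [unif : UniformSpace E]
  fre : IsFrechet E

attribute [instance] FreSp.grp FreSp.mod FreSp.unif

/-- A Fréchet algebra: a Fréchet space with a jointly continuous associative bilinear
multiplication. It need not have a unit. -/
structure FreAlg : Type (u + 1) extends FreSp.{u} where
  mul : E →ₗ[ℂ] E →ₗ[ℂ] E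
  mul_assoc : ∀ a b c : E, mul (mul a b) c = mul a (mul b c)
  mul_cont : Continuous fun q : E × E => mul q.1 q.2

/-- A left Fréchet module over a Fréchet algebra. -/
structure FreMod (A : FreAlg.{v}) : Type (max v (u + 1)) extends FreSp.{u} where
  act : A.E →ₗ[ℂ] E →ₗ[ℂ] E
  act_mul : ∀ (a b : A.E) (x : E), act (A.mul a b) x = act a (act b x)
  act_cont : Continuous fun q : A.E × E => act q.1 q.2

variable {A : FreAlg.{v}}

/-- Continuous linear maps between Fréchet spaces. -/
def Lin (X Y : FreSp.{u}) : Type u := X.E →L[ℂ] Y.E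

/-- The value of a continuous linear map at a point. -/
def Lin.ap {X Y : FreSp.{u}} (φ : Lin X Y) (x : X.E) : Y.E :=
  (show X.E →L[ℂ] Y.E from φ) x

/-- The continuous linear map `φ` is a morphism of left `A`-modules. -/
def IsMor (X Y : FreMod.{u} A) (φ : Lin X.toFreSp Y.toFreSp) : Prop :=
  ∀ (a : A.E) (x : X.E), φ.ap (X.act a x) = Y.act a (φ.ap x)

/-- `ψ` is a left inverse of `φ`. -/
def IsLeftInv {X Y : FreSp.{u}} (ψ : Lin Y X) (φ : Lin X Y) : Prop := ∀ x, ψ.ap (φ.ap x) = x

/-- A Fréchet module `J` is injective if every morphism from `J` which has a continuous linear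
left inverse has a left inverse that is a morphism. -/
def IsInj (J : FreMod.{u} A) : Prop :=
  ∀ (Y : FreMod.{u} A) (φ : Lin J.toFreSp Y.toFreSp), IsMor J Y φ →
    (∃ ψ : Lin Y.toFreSp J.toFreSp, IsLeftInv ψ φ) →
    ∃ ψ : Lin Y.toFreSp J.toFreSp, IsMor Y J ψ ∧ IsLeftInv ψ φ

/-- A sequence `X → J 0 → J 1 → ...` of continuous linear maps between Fréchet modules. -/
structure Cpx (X : FreMod.{u} A) where
  J : ℕ → FreMod.{u} A
  ε : Lin X.toFreSp (J 0).toFreSp
  d : ∀ k, Lin (J k).toFreSp (J (k + 1)).toFreSp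

namespace Cpx

variable {X : FreMod.{u} A} (R : Cpx X)

/-- All maps of the sequence are morphisms of `A`-modules. -/
def AllMor : Prop := IsMor X (R.J 0) R.ε ∧ ∀ k, IsMor (R.J k) (R.J (k + 1)) (R.d k)

/-- The sequence is a complex. -/
def IsComplex : Prop :=
  (∀ x, (R.d 0).ap (R.ε.ap x) = 0) ∧ ∀ k x, (R.d (k + 1)).ap ((R.d k).ap x) = 0

/-- The complex `0 → X → J 0 → J 1 → ...` is admissible: it has a contracting homotopy of
continuous linear maps. -/
def IsAdm : Prop :=
  ∃ (η : Lin (R.J 0).toFreSp X.toFreSp) (h : ∀ k, Lin (R.J (k + 1)).toFreSp (R.J k).toFreSp),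
    IsLeftInv η R.ε ∧ (∀ x, R.ε.ap (η.ap x) + (h 0).ap ((R.d 0).ap x) = x) ∧
    ∀ k x, (R.d k).ap ((h k).ap x) + (h (k + 1)).ap ((R.d (k + 1)).ap x) = x

/-- The sequence is an injective coresolution of `X`. -/
def IsInjCores : Prop := R.AllMor ∧ R.IsComplex ∧ R.IsAdm ∧ ∀ k, IsInj (R.J k)

end Cpx

/-- Products of Fréchet spaces. -/
theorem IsFrechet.prod {E F : Type u} [AddCommGroup E] [Module ℂ E] [UniformSpace E]
    [AddCommGroup F] [Module ℂ F] [UniformSpace F] (hE : IsFrechet E) (hF : IsFrechet F) :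
    IsFrechet (E × F) := by
  have i1 := hE.uniform
  have i2 := hF.uniform
  have i3 := hE.smul
  have i4 := hF.smul
  have i5 := hE.hausdorff
  have i6 := hF.hausdorff
  have i7 := hE.complete
  have i8 := hF.complete
  have i9 := hE.metrizable
  have i10 := hF.metrizable
  refine ⟨inferInstance, inferInstance, inferInstance, inferInstance, ?_, ?_⟩
  · rw [uniformity_prod]
    infer_instance
  · intro U hU
    have h0 : (0 : E × F) = ((0 : E), (0 : F)) := rfl
    rw [h0, nhds_prod_eq, mem_prod_iff] at hU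
    obtain ⟨U1, hU1, U2, hU2, hU⟩ := hU
    obtain ⟨V1, hV1, hVU1, h1⟩ := hE.convex U1 hU1
    obtain ⟨V2, hV2, hVU2, h2⟩ := hF.convex U2 hU2
    refine ⟨V1 ×ˢ V2, ?_, (Set.prod_mono hVU1 hVU2).trans hU, ?_⟩
    · rw [h0, nhds_prod_eq]
      exact prod_mem_prod hV1 hV2
    · intro x hx y hy a b hab
      exact ⟨h1 _ hx.1 _ hy.1 a b hab, h2 _ hx.2 _ hy.2 a b hab⟩

/-! ### The algebra of formal power series without constant term -/

/-- The underlying space of `z ℂ[[z]]`: the sequence `a` stands for the series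
`∑ a n z ^ (n + 1)`. -/
abbrev Ser : Type := ℕ → ℂ

/-- Multiplication of formal power series without constant term: the coefficient of
`z ^ (n + 2)` in the product of `∑ a i z ^ (i + 1)` and `∑ b j z ^ (j + 1)` is the sum of
`a i * b (n - i)` over `i ≤ n`. -/
noncomputable def smul (a b : Ser) : Ser
  | 0 => 0
  | n + 1 => ∑ i ∈ Finset.range (n + 1), a i * b (n - i)

theorem isFrechet_ser : IsFrechet Ser := by
  refine ⟨inferInstance, inferInstance, inferInstance, inferInstance, inferInstance, ?_⟩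
  intro U hU
  rw [nhds_pi, mem_pi] at hU
  obtain ⟨I, hI, t, ht, hU⟩ := hU
  have h1 : ∀ i, ∃ r > 0, Metric.ball (0 : ℂ) r ⊆ t i := fun i => Metric.mem_nhds_iff.1 (ht i)
  choose r hr hrt using h1
  refine ⟨I.pi (fun i => Metric.ball (0 : ℂ) (r i)), ?_, ?_, ?_⟩
  · exact set_pi_mem_nhds hI (fun i _ => Metric.ball_mem_nhds _ (hr i))
  · exact (Set.pi_mono (fun i _ => hrt i)).trans hU
  · intro x hx y hy a b hab i hi
    have hx := hx i hi
    have hy := hy i hi
    rw [mem_ball_zero_iff] at hx hy ⊢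
    have h2 : ‖(a • x + b • y) i‖ ≤ ‖a‖ * ‖x i‖ + ‖b‖ * ‖y i‖ := by
      rw [← norm_mul, ← norm_mul]
      exact norm_add_le _ _
    have h3 : max ‖x i‖ ‖y i‖ < r i := max_lt hx hy
    have h4 : ‖a‖ * ‖x i‖ + ‖b‖ * ‖y i‖ ≤ (‖a‖ + ‖b‖) * max ‖x i‖ ‖y i‖ := by
      rw [add_mul]
      exact add_le_add (mul_le_mul_of_nonneg_left (le_max_left _ _) (norm_nonneg _))
        (mul_le_mul_of_nonneg_left (le_max_right _ _) (norm_nonneg _))
    have h5 : 0 ≤ max ‖x i‖ ‖y i‖ := le_max_of_le_left (norm_nonneg _)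
    nlinarith

theorem mk_smul (a b : Ser) :
    PowerSeries.mk (smul a b) = PowerSeries.X * (PowerSeries.mk a * PowerSeries.mk b) := by
  ext n
  rw [PowerSeries.coeff_mk]
  cases n with
  | zero => simp [smul]
  | succ n =>
    rw [PowerSeries.coeff_succ_X_mul, PowerSeries.coeff_mul]
    simp only [PowerSeries.coeff_mk, smul]
    exact (Finset.Nat.sum_antidiagonal_eq_sum_range_succ (fun i j => a i * b j) n).symm

theorem mk_inj {a b : Ser} (h : PowerSeries.mk a = PowerSeries.mk b) : a = b := by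
  funext n
  rw [← PowerSeries.coeff_mk n a, h, PowerSeries.coeff_mk]

theorem mk_add (a b : Ser) :
    PowerSeries.mk (a + b) = PowerSeries.mk a + PowerSeries.mk b := by
  ext n; simp

theorem mk_csmul (c : ℂ) (a : Ser) : PowerSeries.mk (c • a) = c • PowerSeries.mk a := by
  ext n; simp

/-- The Fréchet algebra `z ℂ[[z]]` of formal power series without constant term, with the topology
of coordinatewise convergence. -/
noncomputable def zSer : FreAlg.{0} where
  E := Ser
  fre := isFrechet_ser
  mul := LinearMap.mk₂ ℂ smul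
    (fun a b c => mk_inj (by rw [mk_smul, mk_add, mk_add, mk_smul, mk_smul]; ring))
    (fun c a b => mk_inj (by rw [mk_smul, mk_csmul, mk_csmul, mk_smul]; simp))
    (fun a b c => mk_inj (by rw [mk_smul, mk_add, mk_add, mk_smul, mk_smul]; ring))
    (fun c a b => mk_inj (by rw [mk_smul, mk_csmul, mk_csmul, mk_smul]; simp))
  mul_assoc := fun a b c => mk_inj (by
    rw [LinearMap.mk₂_apply, LinearMap.mk₂_apply, LinearMap.mk₂_apply, LinearMap.mk₂_apply,
      mk_smul, mk_smul, mk_smul, mk_smul]
    ring)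
  mul_cont := by
    refine continuous_pi (X := Ser × Ser) (fun n => ?_)
    cases n with
    | zero => exact continuous_const
    | succ n =>
      change Continuous fun q : Ser × Ser => ∑ i ∈ Finset.range (n + 1), q.1 i * q.2 (n - i)
      fun_prop

/-- Multiplication by `z` moves the coefficients up. -/
theorem shift_smul (a b : Ser) (n : ℕ) :
    smul a b (n + 1) = b 0 * a n + smul a (fun k => b (k + 1)) n := by
  cases n with
  | zero => simp [smul, mul_comm]
  | succ n =>
    simp only [smul]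
    rw [Finset.sum_range_succ, Nat.sub_self, mul_comm (a (n + 1)), add_comm]
    congr 1
    refine Finset.sum_congr rfl (fun i hi => ?_)
    rw [Nat.succ_sub (Nat.lt_succ_iff.1 (Finset.mem_range.1 hi))]

/-- The shift of a series, as a continuous linear map. -/
noncomputable def shift : Ser →L[ℂ] Ser where
  toFun a n := a (n + 1)
  map_add' _ _ := rfl
  map_smul' _ _ := rfl
  cont := continuous_pi (fun n => continuous_apply (n + 1))

theorem shift_mul (a b : Ser) : shift (smul a b) = b 0 • a + smul a (shift b) := by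
  funext n
  exact shift_smul a b n

/-- The element `z ^ (n + 1)`. -/
noncomputable def zp (n : ℕ) : Ser := Pi.single n 1

theorem zp_zero_zero : zp 0 0 = 1 := Pi.single_eq_same _ _

theorem shift_zp_zero : shift (zp 0) = 0 := by
  funext n
  change zp 0 (n + 1) = 0
  rw [zp, Pi.single_eq_of_ne (Nat.succ_ne_zero n)]

theorem shift_zp_succ (n : ℕ) : shift (zp (n + 1)) = zp n := by
  funext k
  change zp (n + 1) (k + 1) = zp n k
  rw [zp, zp]
  by_cases h : k = n
  · subst h; rw [Pi.single_eq_same, Pi.single_eq_same]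
  · rw [Pi.single_eq_of_ne h, Pi.single_eq_of_ne (fun h' => h (Nat.succ_injective h'))]

theorem smul_zp (a : Ser) (n : ℕ) : smul a (zp 0) n = if n = 0 then 0 else a (n - 1) := by
  cases n with
  | zero => rfl
  | succ n =>
    rw [shift_smul]
    have : (fun k => zp 0 (k + 1)) = 0 := shift_zp_zero
    rw [this]
    have h2 : smul a 0 n = 0 := by
      cases n with
      | zero => rfl
      | succ n => simp [smul]
    rw [h2, zp, Pi.single_eq_same]
    simp

theorem mul_zp (n : ℕ) : smul (zp n) (zp 0) = zp (n + 1) := by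
  funext k
  rw [smul_zp]
  cases k with
  | zero =>
    rw [if_pos rfl, zp, Pi.single_eq_of_ne (Nat.succ_ne_zero n).symm]
  | succ k =>
    rw [if_neg (Nat.succ_ne_zero k), Nat.add_sub_cancel]
    exact congrFun (shift_zp_succ n).symm k

/-- Neighbourhoods of zero contain all multiples of high powers of `z`. -/
theorem exists_zp {V : Set Ser} (hV : V ∈ 𝓝 (0 : Ser)) : ∃ n, ∀ c : ℂ, c • zp n ∈ V := by
  by_contra hcon
  push Not at hcon
  choose c hc using hcon
  have h1 : Tendsto (fun n => c n • zp n) atTop (𝓝 (0 : Ser)) := by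
    rw [tendsto_pi_nhds]
    intro k
    refine tendsto_const_nhds.congr' ?_
    filter_upwards [eventually_gt_atTop k] with n hn
    rw [Pi.smul_apply, zp, Pi.single_eq_of_ne hn.ne, smul_zero]
    rfl
  obtain ⟨n, hn⟩ := (h1.eventually hV).exists
  exact hc n hn

section Main

variable (X : FreSp.{u}) (act : Ser →ₗ[ℂ] X.E →ₗ[ℂ] X.E)

/-- The action of `a / z`, a series with constant term, on a module. -/
noncomputable def tact (a : Ser) : X.E →ₗ[ℂ] X.E := a 0 • LinearMap.id + act (shift a)

theorem tact_apply (a : Ser) (x : X.E) : tact X act a x = a 0 • x + act (shift a) x := rfl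

/-- The action on the module in which the elements of `X` become divisible by `z`. -/
noncomputable def dact : Ser →ₗ[ℂ] (X.E × X.E) →ₗ[ℂ] (X.E × X.E) :=
  LinearMap.mk₂ ℂ (fun a q => (act a q.1 + tact X act a q.2, 0))
    (fun a b q => by
      refine Prod.ext ?_ (by simp)
      simp only [tact_apply, map_add, LinearMap.add_apply, Pi.add_apply, add_smul,
        Prod.mk_add_mk]
      abel)
    (fun c a q => by
      refine Prod.ext ?_ (by simp)
      simp only [tact_apply, map_smul, LinearMap.smul_apply, Pi.smul_apply,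
        Prod.smul_mk, smul_add, smul_eq_mul, mul_smul])
    (fun a q r => by
      refine Prod.ext ?_ (by simp)
      simp only [Prod.fst_add, Prod.snd_add, map_add, Prod.mk_add_mk]
      abel)
    (fun c a q => by
      refine Prod.ext ?_ (by simp)
      simp only [Prod.smul_fst, Prod.smul_snd, map_smul, Prod.smul_mk, smul_add])

theorem dact_apply (a : Ser) (q : X.E × X.E) :
    dact X act a q = (act a q.1 + tact X act a q.2, 0) := rfl

variable {X act} (hact : ∀ a b x, act (smul a b) x = act a (act b x))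
  (hc : Continuous fun q : Ser × X.E => act q.1 q.2)

include hact in
theorem dact_mul (a b : Ser) (q : X.E × X.E) :
    dact X act (smul a b) q = dact X act a (dact X act b q) := by
  refine Prod.ext ?_ rfl
  simp only [dact_apply]
  rw [map_zero, add_zero, hact, map_add]
  congr 1
  rw [tact_apply, tact_apply, map_add, map_smul]
  have h0 : smul a b 0 = 0 := rfl
  rw [h0, zero_smul, zero_add, shift_mul, map_add, LinearMap.add_apply, map_smul,
    LinearMap.smul_apply, hact]

include hc in
theorem dact_cont : Continuous fun q : Ser × (X.E × X.E) => dact X act q.1 q.2 := by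
  have i1 := X.fre.uniform
  have i2 := X.fre.smul
  have h1 : Continuous fun q : Ser × (X.E × X.E) => act q.1 q.2.1 :=
    hc.comp (continuous_fst.prodMk (continuous_fst.comp continuous_snd))
  have h2 : Continuous fun q : Ser × (X.E × X.E) => q.1 0 • q.2.2 :=
    ((continuous_apply 0).comp continuous_fst).smul (continuous_snd.comp continuous_snd)
  have h3 : Continuous fun q : Ser × (X.E × X.E) => act (shift q.1) q.2.2 :=
    hc.comp ((shift.continuous.comp continuous_fst).prodMk
      (continuous_snd.comp continuous_snd))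
  exact (h1.add (h2.add h3)).prodMk continuous_const

include hact hc in
/-- A module which is a retract of its double is zero. -/
theorem eq_zero_of_retract (ψ : (X.E × X.E) →L[ℂ] X.E)
    (hψ : ∀ a q, ψ (dact X act a q) = act a (ψ q)) (h1 : ∀ x, ψ (x, 0) = x) (y : X.E) :
    y = 0 := by
  have i1 := X.fre.uniform
  have i2 := X.fre.smul
  have i3 := X.fre.hausdorff
  have hz : ∀ x, act (zp 0) (ψ (0, x)) = x := by
    intro x
    rw [← hψ, dact_apply, map_zero, zero_add, h1, tact_apply, shift_zp_zero, map_zero,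
      zp_zero_zero, one_smul]
    simp
  have hzn : ∀ n x, ∃ w, act (zp n) w = x := by
    intro n
    induction n with
    | zero => exact fun x => ⟨ψ (0, x), hz x⟩
    | succ n ih =>
      intro x
      obtain ⟨w, hw⟩ := ih x
      refine ⟨ψ (0, w), ?_⟩
      rw [← mul_zp, hact, hz, hw]
  by_contra hy
  -- a neighbourhood of zero that misses `y`
  have hU : ({y}ᶜ : Set X.E) ∈ 𝓝 (0 : X.E) := isOpen_compl_singleton.mem_nhds (by
    simpa using Ne.symm hy)
  have h0 : Tendsto (fun q : Ser × X.E => act q.1 q.2) (𝓝 (0, 0)) (𝓝 (0 : X.E)) := by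
    have := hc.tendsto (0, 0)
    simpa using this
  have h1 := h0 hU
  rw [mem_map, nhds_prod_eq, mem_prod_iff] at h1
  obtain ⟨V, hV, W, hW, hVW⟩ := h1
  obtain ⟨n, hn⟩ := exists_zp hV
  obtain ⟨w, hw⟩ := hzn n y
  -- `w` is absorbed by `W`
  have h2 : Tendsto (fun t : ℂ => t • w) (𝓝 0) (𝓝 (0 : X.E)) := by
    have : Continuous fun t : ℂ => t • w := by fun_prop
    simpa using this.tendsto 0
  obtain ⟨t, ht0, ht⟩ : ∃ t : ℂ, t ≠ 0 ∧ t • w ∈ W := by
    have h3 : ∀ᶠ t in 𝓝 (0 : ℂ), t • w ∈ W := h2 hW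
    have h4 : ∃ᶠ t in 𝓝 (0 : ℂ), t ≠ 0 := by
      have := (inferInstance : (𝓝[≠] (0 : ℂ)).NeBot)
      exact frequently_iff_neBot.2 this
    obtain ⟨t, ht⟩ := (h4.and_eventually h3).exists
    exact ⟨t, ht⟩
  have h5 : act (t⁻¹ • zp n) (t • w) = y := by
    rw [map_smul, map_smul, LinearMap.smul_apply, smul_smul, mul_inv_cancel₀ ht0, one_smul, hw]
  have h6 := hVW (Set.mk_mem_prod (hn t⁻¹) ht)
  exact h6 h5

end Main

/-- The module in which the elements of `J` become divisible by `z`. -/
noncomputable def dbl (J : FreMod.{u} zSer) : FreMod.{u} zSer where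
  E := J.E × J.E
  fre := J.fre.prod J.fre
  act := dact J.toFreSp J.act
  act_mul := dact_mul J.act_mul
  act_cont := dact_cont J.act_cont

/-- An injective module over `z ℂ[[z]]` is zero. -/
theorem eq_zero_of_inj (J : FreMod.{u} zSer) (hJ : IsInj J) (y : J.E) : y = 0 := by
  obtain ⟨ψ, hψ, hψφ⟩ := hJ (dbl J) (ContinuousLinearMap.inl ℂ J.E J.E)
    (fun a x => Prod.ext (by
      change J.act a x = J.act a x + tact J.toFreSp J.act a 0
      rw [map_zero, add_zero]) rfl)
    ⟨ContinuousLinearMap.fst ℂ J.E J.E, fun x => rfl⟩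
  exact eq_zero_of_retract (X := J.toFreSp) (act := J.act) J.act_mul J.act_cont ψ hψ hψφ y

/-- A non-zero module over `z ℂ[[z]]` has no injective coresolution. -/
theorem eq_zero_of_cores (X : FreMod.{u} zSer) (R : Cpx X) (hR : R.IsInjCores) (x : X.E) :
    x = 0 := by
  obtain ⟨-, -, ⟨η, h, h1, -, -⟩, hinj⟩ := hR
  have h2 := eq_zero_of_inj (R.J 0) (hinj 0) (R.ε.ap x)
  rw [← h1 x, h2]
  exact map_zero (show (R.J 0).E →L[ℂ] X.E from η)

theorem isFrechet_complex : IsFrechet ℂ := by
  refine ⟨inferInstance, inferInstance, inferInstance, inferInstance, inferInstance, ?_⟩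
  intro U hU
  obtain ⟨r, hr, hrU⟩ := Metric.mem_nhds_iff.1 hU
  refine ⟨Metric.ball 0 r, Metric.ball_mem_nhds _ hr, hrU, fun x hx y hy a b hab => ?_⟩
  rw [mem_ball_zero_iff] at hx hy ⊢
  have h2 : ‖a • x + b • y‖ ≤ ‖a‖ * ‖x‖ + ‖b‖ * ‖y‖ := by
    rw [← norm_mul, ← norm_mul]
    exact norm_add_le _ _
  have h3 : max ‖x‖ ‖y‖ < r := max_lt hx hy
  have h4 : ‖a‖ * ‖x‖ + ‖b‖ * ‖y‖ ≤ (‖a‖ + ‖b‖) * max ‖x‖ ‖y‖ := by
    rw [add_mul]
    exact add_le_add (mul_le_mul_of_nonneg_left (le_max_left _ _) (norm_nonneg _))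
      (mul_le_mul_of_nonneg_left (le_max_right _ _) (norm_nonneg _))
  have h5 : 0 ≤ max ‖x‖ ‖y‖ := le_max_of_le_left (norm_nonneg _)
  nlinarith

/-- The one-dimensional module with zero action. -/
noncomputable def triv (A : FreAlg.{v}) : FreMod.{0} A where
  E := ℂ
  fre := isFrechet_complex
  act := 0
  act_mul := fun _ _ _ => rfl
  act_cont := continuous_const

end Pool.Agent.V1192.Fre
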