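import Pool.Agent.V1192.L1

/-!
# The group algebra `ℓ¹(G)`
-/

open Filter Topology Pool.Agent.V1192.L1

namespace Pool.Agent.V1192.GA

noncomputable section

variable {G : Type} [Group G]

/-- Convolution by a point mass from the left. -/
def inner (g : G) : L1 G →L[ℂ] L1 G := lift (fun h => e (g * h)) 1 (fun _ => (norm_e _).le)

/-- Convolution on `ℓ¹(G)`, as a bounded bilinear map. -/
def mulL : L1 G →L[ℂ] L1 G →L[ℂ] L1 G :=
  lift inner 1 (fun _ => norm_lift_le _ _ _ zero_le_one)

theorem mulL_e (g h : G) : mulL (e g) (e h) = e (g * h) := by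
  rw [mulL, lift_e, inner, lift_e]

theorem mulL_assoc (a b c : L1 G) : mulL (mulL a b) c = mulL a (mulL b c) := by
  have h1 : ∀ p q : G, mulL (mulL (e p) (e q)) = (mulL (e p)).comp (mulL (e q)) := by
    intro p q
    refine ext_e (fun r => ?_)
    rw [mulL_e, mulL_e]
    change _ = mulL (e p) (mulL (e q) (e r))
    rw [mulL_e, mulL_e, mul_assoc]
  have h2 : ∀ (p : G) c, (mulL.flip c).comp (mulL (e p)) = (mulL (e p)).comp (mulL.flip c) := by
    intro p c
    refine ext_e (fun q => ?_)
    exact DFunLike.congr_fun (h1 p q) c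
  have h3 : ∀ b c : L1 G, (mulL.flip c).comp (mulL.flip b) = mulL.flip (mulL b c) := by
    intro b c
    refine ext_e (fun p => ?_)
    exact DFunLike.congr_fun (h2 p c) b
  exact DFunLike.congr_fun (h3 b c) a

theorem one_mulL (a : L1 G) : mulL (e 1) a = a := by
  have : mulL (e (1 : G)) = ContinuousLinearMap.id ℂ _ := ext_e (fun q => by
    rw [mulL_e, one_mul]; rfl)
  rw [this]; rfl

theorem mulL_one (a : L1 G) : mulL a (e 1) = a := by
  have : mulL.flip (e (1 : G)) = ContinuousLinearMap.id ℂ _ := ext_e (fun q => by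
    change mulL (e q) (e 1) = _
    rw [mulL_e, mul_one]; rfl)
  exact DFunLike.congr_fun this a

theorem norm_mulL_le (a b : L1 G) : ‖mulL a b‖ ≤ ‖a‖ * ‖b‖ := by
  have h : ‖(mulL : L1 G →L[ℂ] L1 G →L[ℂ] L1 G)‖ ≤ 1 := norm_lift_le _ _ _ zero_le_one
  refine (mulL.le_opNorm₂ a b).trans ?_
  have := mul_nonneg (norm_nonneg a) (norm_nonneg b)
  nlinarith

theorem mulL_add (a b c : L1 G) : mulL (a + b) c = mulL a c + mulL b c := by
  rw [map_add, add_apply]

theorem mulL_add' (a b c : L1 G) : mulL a (b + c) = mulL a b + mulL a c := map_add _ _ _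

theorem mulL_zero' (a : L1 G) : mulL a 0 = 0 := map_zero _

theorem mulL_smul' (c : ℂ) (a b : L1 G) : mulL a (c • b) = c • mulL a b := map_smul _ _ _

theorem mulL_zero (a : L1 G) : mulL 0 a = 0 := by
  rw [map_zero, zero_apply]

theorem mulL_smul (c : ℂ) (a b : L1 G) : mulL (c • a) b = c • mulL a b := by
  rw [map_smul, smul_apply]

/-- Coordinates of a convolution. -/
theorem co_mulL (a b : L1 G) (x : G) :
    co (mulL a b) x = ∑' y, co a y * co b (y⁻¹ * x) := by
  let ev : L1 G →L[ℂ] ℂ := LinearMap.mkContinuous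
    { toFun := fun a => co a x
      map_add' := fun a b => co_add a b x
      map_smul' := fun c a => co_smul c a x } 1 (fun a => by
      rw [one_mul, norm_eq]
      exact (summable_co a).le_tsum x (fun _ _ => norm_nonneg _))
  have h1 : ∀ (y : G) (b : L1 G), co (mulL (e y) b) x = co b (y⁻¹ * x) := by
    intro y b
    let ev' : L1 G →L[ℂ] ℂ := LinearMap.mkContinuous
      { toFun := fun a => co a (y⁻¹ * x)
        map_add' := fun a b => co_add a b _
        map_smul' := fun c a => co_smul c a _ } 1 (fun a => by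
        rw [one_mul, norm_eq]
        exact (summable_co a).le_tsum _ (fun _ _ => norm_nonneg _))
    have : ev.comp (mulL (e y)) = ev' := by
      refine ext_e (fun h => ?_)
      change co (mulL (e y) (e h)) x = co (e h) (y⁻¹ * x)
      rw [mulL_e]
      by_cases hx : x = y * h
      · subst hx
        rw [co_e_self, inv_mul_cancel_left, co_e_self]
      · rw [co_e_ne hx, co_e_ne]
        intro h2
        apply hx
        rw [← h2, mul_inv_cancel_left]
    exact DFunLike.congr_fun this b
  have h2 := hasSum_map ((ev.comp (mulL.flip b)) : L1 G →L[ℂ] ℂ) a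
  have h3 : ∀ y, co a y • (ev.comp (mulL.flip b)) (e y) = co a y * co b (y⁻¹ * x) := by
    intro y
    rw [smul_eq_mul]
    congr 1
    exact h1 y b
  simp only [h3] at h2
  exact h2.tsum_eq.symm

variable (G) in
/-- The group algebra `ℓ¹(G)`. -/
def GA : Type := L1 G

/-- The normed group underlying `ℓ¹(G)`. -/
abbrev nacg : NormedAddCommGroup (GA G) := inferInstanceAs (NormedAddCommGroup (L1 G))

instance instNR : NormedRing (GA G) :=
  { (nacg : NormedAddCommGroup (GA G)) with
    mul := fun a b => mulL a b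
    one := e 1
    left_distrib := mulL_add'
    right_distrib := mulL_add
    zero_mul := mulL_zero
    mul_zero := mulL_zero'
    mul_assoc := mulL_assoc
    one_mul := one_mulL
    mul_one := mulL_one
    norm_mul_le := norm_mulL_le }

instance instNS : NormedSpace ℂ (GA G) := inferInstanceAs (NormedSpace ℂ (L1 G))

instance instCS : CompleteSpace (GA G) := inferInstanceAs (CompleteSpace (L1 G))

instance instAlg : Algebra ℂ (GA G) :=
  Algebra.ofModule mulL_smul mulL_smul'

instance instNA : NormedAlgebra ℂ (GA G) where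
  norm_smul_le c x := norm_smul_le (α := ℂ) (β := L1 G) c x

/-- The point masses in `ℓ¹(G)`. -/
def pt (g : G) : GA G := e g

theorem pt_mul (g h : G) : pt g * pt h = pt (g * h) := mulL_e g h

theorem pt_one : pt (1 : G) = 1 := rfl

theorem norm_pt (g : G) : ‖pt g‖ = 1 := norm_e g

/-- The value of an element of `ℓ¹(G)` at a point. -/
def val (a : GA G) (x : G) : ℂ := co a x

theorem val_mul (a b : GA G) (x : G) : val (a * b) x = ∑' y, val a y * val b (y⁻¹ * x) :=
  co_mulL a b x

theorem val_norm (a : GA G) : ‖a‖ = ∑' x, ‖val a x‖ := norm_eq a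

section Maps

variable {Y : Type*} [NormedAddCommGroup Y] [NormedSpace ℂ Y]

theorem ga_ext {S T : GA G →L[ℂ] Y} (h : ∀ i, S (pt i) = T (pt i)) : S = T :=
  ext_e (ι := G) (S := S) (T := T) h

theorem ga_norm {T : GA G →L[ℂ] Y} {C : ℝ} (hC : 0 ≤ C) (h : ∀ i, ‖T (pt i)‖ ≤ C) : ‖T‖ ≤ C :=
  norm_le_of_e (ι := G) (T := T) hC h

theorem ga_hasSum (T : GA G →L[ℂ] Y) (a : GA G) : HasSum (fun g => val a g • T (pt g)) (T a) :=
  hasSum_map (ι := G) T a

variable [CompleteSpace Y]

/-- Operators on `ℓ¹(G)` with prescribed values on the basis. -/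
def ga_lift (T : G → Y) (C : ℝ) (hT : ∀ i, ‖T i‖ ≤ C) : GA G →L[ℂ] Y := lift T C hT

theorem ga_lift_pt (T : G → Y) (C : ℝ) (hT : ∀ i, ‖T i‖ ≤ C) (i : G) :
    ga_lift T C hT (pt i) = T i := lift_e T C hT i

end Maps

end

end Pool.Agent.V1192.GA
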