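import Mathlib

/-!
# Approximately semi-amenable Banach algebras

Basic definitions, and a criterion for approximate semi-amenability in terms of bilinear forms.
-/

open Filter Topology

namespace Pool.Agent.V1192.SemiAmen

universe u

noncomputable section

section Defs

variable {A X : Type u} [NonUnitalNormedRing A] [NormedSpace ℂ A] [NormedAddCommGroup X]
  [NormedSpace ℂ X]

variable (A X) in
/-- A structure of a Banach `A`-bimodule on the Banach space `X`, where `l a x` stands for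
`a · x` and `r a x` stands for `x · a`. -/
structure Bimod where
  /-- the left action -/
  l : A →L[ℂ] X →L[ℂ] X
  /-- the right action -/
  r : A →L[ℂ] X →L[ℂ] X
  l_mul : ∀ a b x, l (a * b) x = l a (l b x)
  r_mul : ∀ a b x, r (a * b) x = r b (r a x)
  comm : ∀ a b x, l a (r b x) = r b (l a x)

/-- The dual left action `a · f = (x ↦ f (x · a))` on `X*`. -/
def Bimod.dl (M : Bimod A X) (a : A) (f : StrongDual ℂ X) : StrongDual ℂ X := f.comp (M.r a)

/-- The dual right action `f · a = (x ↦ f (a · x))` on `X*`. -/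
def Bimod.dr (M : Bimod A X) (a : A) (f : StrongDual ℂ X) : StrongDual ℂ X := f.comp (M.l a)

/-- `D` is a derivation into the dual bimodule `X*`. -/
def Bimod.IsDeriv (M : Bimod A X) (D : A →L[ℂ] StrongDual ℂ X) : Prop :=
  ∀ a b, D (a * b) = M.dl a (D b) + M.dr b (D a)

/-- `D` is the pointwise norm limit of a net of maps `a ↦ a · ξ_i - η_i · a`. -/
def Bimod.IsApproxSemiInner (M : Bimod A X) (D : A →L[ℂ] StrongDual ℂ X) : Prop :=
  ∃ (ι : Type u) (_ : Preorder ι) (_ : IsDirected ι (· ≤ ·)) (_ : Nonempty ι)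
    (ξ η : ι → StrongDual ℂ X),
    ∀ a, Tendsto (fun i => M.dl a (ξ i) - M.dr a (η i)) atTop (𝓝 (D a))

/-- `D` is the pointwise norm limit of a net of maps `a ↦ a · ξ_i - η_i · a` with uniformly
bounded operator norms. -/
def Bimod.IsBddApproxSemiInner (M : Bimod A X) (D : A →L[ℂ] StrongDual ℂ X) : Prop :=
  ∃ (K : ℝ) (ι : Type u) (_ : Preorder ι) (_ : IsDirected ι (· ≤ ·)) (_ : Nonempty ι)
    (ξ η : ι → StrongDual ℂ X),
    (∀ i a, ‖M.dl a (ξ i) - M.dr a (η i)‖ ≤ K * ‖a‖) ∧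
    ∀ a, Tendsto (fun i => M.dl a (ξ i) - M.dr a (η i)) atTop (𝓝 (D a))

end Defs

/-- Approximate semi-amenability. -/
def ASA (A : Type u) [NonUnitalNormedRing A] [NormedSpace ℂ A] : Prop :=
  ∀ (X : Type u) [NormedAddCommGroup X] [NormedSpace ℂ X] [CompleteSpace X]
    (M : Bimod A X) (D : A →L[ℂ] StrongDual ℂ X), M.IsDeriv D → M.IsApproxSemiInner D

/-- Bounded approximate semi-amenability. -/
def BddASA (A : Type u) [NonUnitalNormedRing A] [NormedSpace ℂ A] : Prop :=
  ∀ (X : Type u) [NormedAddCommGroup X] [NormedSpace ℂ X] [CompleteSpace X]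
    (M : Bimod A X) (D : A →L[ℂ] StrongDual ℂ X), M.IsDeriv D → M.IsBddApproxSemiInner D

section HahnBanach

/-- Hahn-Banach for a linear subspace. -/
theorem approx_of_dual {E : Type*} [NormedAddCommGroup E] [NormedSpace ℂ E]
    (S : Submodule ℂ E) (v : E)
    (h : ∀ f : StrongDual ℂ E, (∀ w ∈ S, f w = 0) → f v = 0) {ε : ℝ} (hε : 0 < ε) :
    ∃ w ∈ S, ‖v - w‖ < ε := by
  by_cases h0 : ‖S.mkQ v‖ = 0
  · have h1 : ‖S.mkQ v‖ < ε := by rw [h0]; exact hε
    obtain ⟨m, hm, hm2⟩ := (QuotientAddGroup.norm_lt_iff (S := S.toAddSubgroup)).1 h1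
    have h2 : v - m ∈ S := by
      have : (Submodule.Quotient.mk v : E ⧸ S) = Submodule.Quotient.mk m := hm.symm
      rw [Submodule.Quotient.eq] at this
      exact this
    refine ⟨v - m, h2, ?_⟩
    rwa [sub_sub_cancel]
  · obtain ⟨g, -, hg⟩ := exists_dual_vector ℂ (S.mkQ v) h0
    exfalso
    let q : E →L[ℂ] E ⧸ S := ⟨S.mkQ, continuous_quot_mk⟩
    have h1 := h (g.comp q) (fun w hw => by
      change g (S.mkQ w) = 0
      have : S.mkQ w = 0 := by simpa using hw
      rw [this, map_zero])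
    have h2 : g (S.mkQ v) = 0 := h1
    rw [h2] at hg
    exact h0 (Complex.ofReal_eq_zero.1 hg.symm)

/-- Hahn-Banach for a linear subspace of a finite power. -/
theorem approx_of_dual_pi {E F ι : Type*} [NormedAddCommGroup E] [NormedSpace ℂ E] [Fintype ι]
    [AddCommGroup F] [Module ℂ F] (T : F →ₗ[ℂ] (ι → E)) (v : ι → E)
    (h : ∀ f : ι → StrongDual ℂ E, (∀ w, ∑ i, f i (T w i) = 0) → ∑ i, f i (v i) = 0)
    {ε : ℝ} (hε : 0 < ε) :
    ∃ w, ∀ i, ‖v i - T w i‖ < ε := by
  classical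
  obtain ⟨w, ⟨u, rfl⟩, hw⟩ := approx_of_dual (LinearMap.range T) v (fun f hf => by
    have hsum : ∀ x : ι → E, f x = ∑ i, (f.comp (ContinuousLinearMap.single ℂ (fun _ => E) i)) (x i) := by
      intro x
      conv_lhs => rw [← Finset.univ_sum_single x]
      rw [map_sum]
      rfl
    rw [hsum]
    refine h (fun i => f.comp (ContinuousLinearMap.single ℂ (fun _ => E) i)) (fun w => ?_)
    rw [← hsum]
    exact hf _ (LinearMap.mem_range_self T w)) hε
  refine ⟨u, fun i => lt_of_le_of_lt ?_ hw⟩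
  exact norm_le_pi_norm (v - T u) i

end HahnBanach

section Finite

variable {A X : Type u} [NonUnitalNormedRing A] [NormedSpace ℂ A] [NormedAddCommGroup X]
  [NormedSpace ℂ X]

/-- Finite version of approximate semi-innerness: consequence. -/
theorem Bimod.IsApproxSemiInner.finite {M : Bimod A X} {D : A →L[ℂ] StrongDual ℂ X}
    (h : M.IsApproxSemiInner D) {ι : Type*} [Fintype ι] (a : ι → A) {ε : ℝ} (hε : 0 < ε) :
    ∃ ξ η : StrongDual ℂ X, ∀ i, ‖D (a i) - (M.dl (a i) ξ - M.dr (a i) η)‖ < ε := by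
  obtain ⟨κ, _, _, _, ξ, η, h⟩ := h
  have h1 : ∀ i, ∀ᶠ k in atTop, ‖D (a i) - (M.dl (a i) (ξ k) - M.dr (a i) (η k))‖ < ε := by
    intro i
    have := (Metric.tendsto_nhds.1 (h (a i))) ε hε
    filter_upwards [this] with k hk
    rwa [dist_comm, dist_eq_norm] at hk
  obtain ⟨k, hk⟩ := (Filter.eventually_all.2 h1).exists
  exact ⟨ξ k, η k, hk⟩

/-- Finite version of approximate semi-innerness: criterion. -/
theorem Bimod.isApproxSemiInner_of_finite {M : Bimod A X} {D : A →L[ℂ] StrongDual ℂ X}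
    (h : ∀ (ι : Type u) [Fintype ι] (a : ι → A) (ε : ℝ), 0 < ε →
      ∃ ξ η : StrongDual ℂ X, ∀ i, ‖D (a i) - (M.dl (a i) ξ - M.dr (a i) η)‖ < ε) :
    M.IsApproxSemiInner D := by
  have h1 : ∀ p : Finset A × ℕ, ∃ ξ η : StrongDual ℂ X, ∀ a ∈ p.1,
      ‖D a - (M.dl a ξ - M.dr a η)‖ < 1 / ((p.2 : ℝ) + 1) := by
    intro p
    obtain ⟨ξ, η, h2⟩ := h p.1 (fun x => x.1) (1 / ((p.2 : ℝ) + 1)) (by positivity)
    exact ⟨ξ, η, fun a ha => h2 ⟨a, ha⟩⟩
  choose ξ η h1 using h1
  have hdir : IsDirected (Finset A × ℕ) (· ≤ ·) := by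
    classical
    exact ⟨fun p q => ⟨(p.1 ∪ q.1, max p.2 q.2), ⟨Finset.subset_union_left, le_max_left _ _⟩,
      ⟨Finset.subset_union_right, le_max_right _ _⟩⟩⟩
  refine ⟨Finset A × ℕ, inferInstance, hdir, inferInstance, ξ, η, fun a => ?_⟩
  rw [Metric.tendsto_nhds]
  intro ε hε
  obtain ⟨n, hn⟩ := exists_nat_one_div_lt hε
  filter_upwards [eventually_ge_atTop (({a}, n) : Finset A × ℕ)] with p hp
  rw [dist_comm, dist_eq_norm]
  have ha : a ∈ p.1 := hp.1 (Finset.mem_singleton_self a)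
  refine (h1 p a ha).trans_le (le_trans ?_ hn.le)
  apply one_div_le_one_div_of_le (by positivity)
  have : (n : ℝ) ≤ p.2 := by exact_mod_cast hp.2
  linarith

end Finite

section Criterion

variable (A : Type u) [NonUnitalNormedRing A] [NormedSpace ℂ A] [IsScalarTower ℂ A A]
  [SMulCommClass ℂ A A]

omit [IsScalarTower ℂ A A] [SMulCommClass ℂ A A] in
/-- The predual bimodule used for the criterion. -/
def XX : Type u := (A →L[ℂ] A →L[ℂ] ℂ) × (A →L[ℂ] ℂ)

omit [IsScalarTower ℂ A A] [SMulCommClass ℂ A A] in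
instance : NormedAddCommGroup (XX A) :=
  inferInstanceAs (NormedAddCommGroup ((A →L[ℂ] A →L[ℂ] ℂ) × (A →L[ℂ] ℂ)))

omit [IsScalarTower ℂ A A] [SMulCommClass ℂ A A] in
instance : NormedSpace ℂ (XX A) :=
  inferInstanceAs (NormedSpace ℂ ((A →L[ℂ] A →L[ℂ] ℂ) × (A →L[ℂ] ℂ)))

omit [IsScalarTower ℂ A A] [SMulCommClass ℂ A A] in
instance : CompleteSpace (XX A) :=
  inferInstanceAs (CompleteSpace ((A →L[ℂ] A →L[ℂ] ℂ) × (A →L[ℂ] ℂ)))

variable {A}

omit [IsScalarTower ℂ A A] [SMulCommClass ℂ A A] in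
theorem XX.ext {p q : XX A} (h1 : ∀ x y, p.1 x y = q.1 x y) (h2 : ∀ y, p.2 y = q.2 y) :
    p = q := by
  refine Prod.ext ?_ ?_
  · ext x y; exact h1 x y
  · ext y; exact h2 y

omit [IsScalarTower ℂ A A] [SMulCommClass ℂ A A] in
theorem XX.fst_add (p q : XX A) (x y : A) : (p + q).1 x y = p.1 x y + q.1 x y := rfl

omit [IsScalarTower ℂ A A] [SMulCommClass ℂ A A] in
theorem XX.snd_add (p q : XX A) (y : A) : (p + q).2 y = p.2 y + q.2 y := rfl

omit [IsScalarTower ℂ A A] [SMulCommClass ℂ A A] in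
theorem XX.fst_smul (c : ℂ) (p : XX A) (x y : A) : (c • p).1 x y = c • p.1 x y := rfl

omit [IsScalarTower ℂ A A] [SMulCommClass ℂ A A] in
theorem XX.snd_smul (c : ℂ) (p : XX A) (y : A) : (c • p).2 y = c • p.2 y := rfl

omit [IsScalarTower ℂ A A] [SMulCommClass ℂ A A] in
theorem XX.fst_sum {ι : Type*} (s : Finset ι) (p : ι → XX A) (x y : A) :
    (∑ i ∈ s, p i).1 x y = ∑ i ∈ s, (p i).1 x y := by
  let f : XX A →+ ℂ := ⟨⟨fun p => p.1 x y, rfl⟩, fun p q => rfl⟩
  exact map_sum f p s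

omit [IsScalarTower ℂ A A] [SMulCommClass ℂ A A] in
theorem XX.snd_sum {ι : Type*} (s : Finset ι) (p : ι → XX A) (y : A) :
    (∑ i ∈ s, p i).2 y = ∑ i ∈ s, (p i).2 y := by
  let f : XX A →+ ℂ := ⟨⟨fun p => p.2 y, rfl⟩, fun p q => rfl⟩
  exact map_sum f p s

omit [IsScalarTower ℂ A A] [SMulCommClass ℂ A A] in
theorem XX.norm_le {p : XX A} {C : ℝ} (hC : 0 ≤ C) (h1 : ∀ x y, ‖p.1 x y‖ ≤ C * ‖x‖ * ‖y‖)
    (h2 : ∀ y, ‖p.2 y‖ ≤ C * ‖y‖) : ‖p‖ ≤ C := by
  exact max_le (ContinuousLinearMap.opNorm_le_bound₂ p.1 hC h1)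
    (ContinuousLinearMap.opNorm_le_bound p.2 hC h2)

/-- The left action. -/
def lact (a : A) (p : XX A) : XX A :=
  (((ContinuousLinearMap.compL ℂ A A ℂ).flip ((ContinuousLinearMap.mul ℂ A).flip a)).comp p.1
    - ((ContinuousLinearMap.compL ℂ A A ℂ) (p.1.flip a)).comp (ContinuousLinearMap.mul ℂ A),
   p.2.comp ((ContinuousLinearMap.mul ℂ A).flip a) - p.1.flip a)

theorem lact_fst (a : A) (p : XX A) (x y : A) :
    (lact a p).1 x y = p.1 x (y * a) - p.1 (x * y) a := rfl

theorem lact_snd (a : A) (p : XX A) (y : A) :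
    (lact a p).2 y = p.2 (y * a) - p.1 y a := rfl

/-- The right action. -/
def ract (a : A) (p : XX A) : XX A :=
  (p.1.comp (ContinuousLinearMap.mul ℂ A a), p.1 a)

theorem ract_fst (a : A) (p : XX A) (x y : A) : (ract a p).1 x y = p.1 (a * x) y := rfl

theorem ract_snd (a : A) (p : XX A) (y : A) : (ract a p).2 y = p.1 a y := rfl

omit [IsScalarTower ℂ A A] [SMulCommClass ℂ A A] in
theorem fst_bound (p : XX A) (x y : A) : ‖p.1 x y‖ ≤ ‖p‖ * ‖x‖ * ‖y‖ := by
  refine (p.1.le_opNorm₂ x y).trans ?_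
  have h : ‖p.1‖ ≤ ‖p‖ := le_max_left _ _
  gcongr

omit [IsScalarTower ℂ A A] [SMulCommClass ℂ A A] in
theorem snd_bound (p : XX A) (y : A) : ‖p.2 y‖ ≤ ‖p‖ * ‖y‖ := by
  refine (p.2.le_opNorm y).trans ?_
  have h : ‖p.2‖ ≤ ‖p‖ := le_max_right _ _
  gcongr

theorem norm_lact (a : A) (p : XX A) : ‖lact a p‖ ≤ 2 * ‖a‖ * ‖p‖ := by
  refine XX.norm_le (by positivity) (fun x y => ?_) (fun y => ?_)
  · rw [lact_fst]
    refine (norm_sub_le _ _).trans ?_
    have h1 := fst_bound p x (y * a)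
    have h2 := fst_bound p (x * y) a
    have h3 : ‖p‖ * ‖x‖ * ‖y * a‖ ≤ ‖p‖ * ‖x‖ * (‖y‖ * ‖a‖) := by
      gcongr; exact norm_mul_le _ _
    have h4 : ‖p‖ * ‖x * y‖ * ‖a‖ ≤ ‖p‖ * (‖x‖ * ‖y‖) * ‖a‖ := by
      gcongr; exact norm_mul_le _ _
    nlinarith
  · rw [lact_snd]
    refine (norm_sub_le _ _).trans ?_
    have h1 := snd_bound p (y * a)
    have h2 := fst_bound p y a
    have h3 : ‖p‖ * ‖y * a‖ ≤ ‖p‖ * (‖y‖ * ‖a‖) := by
      gcongr; exact norm_mul_le _ _
    nlinarith

theorem norm_ract (a : A) (p : XX A) : ‖ract a p‖ ≤ 1 * ‖a‖ * ‖p‖ := by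
  refine XX.norm_le (by positivity) (fun x y => ?_) (fun y => ?_)
  · rw [ract_fst]
    have h1 := fst_bound p (a * x) y
    have h3 : ‖p‖ * ‖a * x‖ * ‖y‖ ≤ ‖p‖ * (‖a‖ * ‖x‖) * ‖y‖ := by
      gcongr; exact norm_mul_le _ _
    nlinarith
  · rw [ract_snd]
    have h2 := fst_bound p a y
    nlinarith

variable (A) in
/-- The bimodule used for the criterion. -/
def MM : Bimod A (XX A) where
  l := LinearMap.mkContinuous₂ (LinearMap.mk₂ ℂ lact
    (fun a b p => by
      refine XX.ext (fun x y => ?_) (fun y => ?_)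
      · simp only [lact_fst, XX.fst_add, mul_add, map_add]; ring
      · simp only [lact_snd, XX.snd_add, mul_add, map_add]; ring)
    (fun c a p => by
      refine XX.ext (fun x y => ?_) (fun y => ?_)
      · simp only [lact_fst, XX.fst_smul, mul_smul_comm, map_smul, smul_sub]
      · simp only [lact_snd, XX.snd_smul, mul_smul_comm, map_smul, smul_sub])
    (fun a p q => by
      refine XX.ext (fun x y => ?_) (fun y => ?_)
      · simp only [lact_fst, XX.fst_add]; ring
      · simp only [lact_snd, XX.fst_add, XX.snd_add]; ring)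
    (fun c a p => by
      refine XX.ext (fun x y => ?_) (fun y => ?_)
      · simp only [lact_fst, XX.fst_smul, smul_sub]
      · simp only [lact_snd, XX.fst_smul, XX.snd_smul, smul_sub])) 2 norm_lact
  r := LinearMap.mkContinuous₂ (LinearMap.mk₂ ℂ ract
    (fun a b p => by
      refine XX.ext (fun x y => ?_) (fun y => ?_)
      · simp only [ract_fst, XX.fst_add, add_mul, map_add, add_apply]
      · simp only [ract_snd, XX.snd_add, map_add, add_apply])
    (fun c a p => by
      refine XX.ext (fun x y => ?_) (fun y => ?_)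
      · simp only [ract_fst, XX.fst_smul, smul_mul_assoc, map_smul, smul_apply]
      · simp only [ract_snd, XX.snd_smul, map_smul, smul_apply])
    (fun a p q => by
      refine XX.ext (fun x y => ?_) (fun y => ?_)
      · simp only [ract_fst, XX.fst_add]
      · simp only [ract_snd, XX.fst_add, XX.snd_add])
    (fun c a p => by
      refine XX.ext (fun x y => ?_) (fun y => ?_)
      · simp only [ract_fst, XX.fst_smul]
      · simp only [ract_snd, XX.fst_smul, XX.snd_smul])) 1 norm_ract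
  l_mul a b p := by
    change lact (a * b) p = lact a (lact b p)
    refine XX.ext (fun x y => ?_) (fun y => ?_)
    · simp only [lact_fst, mul_assoc]; ring
    · simp only [lact_snd, lact_fst, mul_assoc]; ring
  r_mul a b p := by
    change ract (a * b) p = ract b (ract a p)
    refine XX.ext (fun x y => ?_) (fun y => ?_)
    · simp only [ract_fst, mul_assoc]
    · simp only [ract_snd, ract_fst]
  comm a b p := by
    change lact a (ract b p) = ract b (lact a p)
    refine XX.ext (fun x y => ?_) (fun y => ?_)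
    · simp only [lact_fst, ract_fst, mul_assoc]
    · simp only [lact_snd, lact_fst, ract_fst, ract_snd]

theorem MM_l (a : A) (p : XX A) : (MM A).l a p = lact a p := rfl

theorem MM_r (a : A) (p : XX A) : (MM A).r a p = ract a p := rfl

variable (A) in
/-- The derivation used for the criterion. -/
def DD : A →L[ℂ] StrongDual ℂ (XX A) :=
  LinearMap.mkContinuous₂ (LinearMap.mk₂ ℂ (fun (a : A) (p : XX A) => - p.2 a)
    (fun a b p => by simp only [map_add]; ring)
    (fun c a p => by simp only [map_smul, smul_neg])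
    (fun a p q => by simp only [XX.snd_add]; ring)
    (fun c a p => by simp only [XX.snd_smul, smul_neg])) 1 (fun a p => by
      have := snd_bound p a
      simp only [LinearMap.mk₂_apply, norm_neg]
      nlinarith)

omit [IsScalarTower ℂ A A] [SMulCommClass ℂ A A] in
theorem DD_apply (a : A) (p : XX A) : DD A a p = - p.2 a := rfl

theorem DD_deriv : (MM A).IsDeriv (DD A) := by
  intro a b
  ext p
  change DD A (a * b) p = DD A b ((MM A).r a p) + DD A a ((MM A).l b p)
  rw [DD_apply, DD_apply, DD_apply, MM_l, MM_r, ract_snd, lact_snd]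
  ring

/-- First form of the criterion. -/
theorem ASA.weak (hA : ASA A) {ι : Type*} [Fintype ι] (a : ι → A)
    (β : ι → A →L[ℂ] A →L[ℂ] ℂ) (lam : ι → StrongDual ℂ A)
    (h1 : ∀ x y, ∑ i, β i (a i * x) y = 0) (h1' : ∀ y, ∑ i, β i (a i) y = 0)
    (h2 : ∀ x y, ∑ i, β i x (y * a i) = ∑ i, β i (x * y) (a i))
    (h2' : ∀ y, ∑ i, β i y (a i) = ∑ i, lam i (y * a i)) : ∑ i, lam i (a i) = 0 := by
  set p : ι → XX A := fun i => (β i, lam i) with hp
  have hr : ∑ i, ract (a i) (p i) = 0 := by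
    refine XX.ext (fun x y => ?_) (fun y => ?_)
    · have : (∑ i, ract (a i) (p i)).1 x y = ∑ i, β i (a i * x) y := by
        rw [XX.fst_sum]; rfl
      rw [this, h1]; rfl
    · have : (∑ i, ract (a i) (p i)).2 y = ∑ i, β i (a i) y := by
        rw [XX.snd_sum]; rfl
      rw [this, h1']; rfl
  have hl : ∑ i, lact (a i) (p i) = 0 := by
    refine XX.ext (fun x y => ?_) (fun y => ?_)
    · have : (∑ i, lact (a i) (p i)).1 x y
          = ∑ i, β i x (y * a i) - ∑ i, β i (x * y) (a i) := by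
        rw [XX.fst_sum, ← Finset.sum_sub_distrib]; rfl
      rw [this, h2, sub_self]; rfl
    · have : (∑ i, lact (a i) (p i)).2 y = ∑ i, lam i (y * a i) - ∑ i, β i y (a i) := by
        rw [XX.snd_sum, ← Finset.sum_sub_distrib]; rfl
      rw [this, h2', sub_self]; rfl
  have key : ∀ ε : ℝ, 0 < ε → ‖∑ i, lam i (a i)‖ ≤ ε * ∑ i, ‖p i‖ := by
    intro ε hε
    obtain ⟨Φ, Ψ, h⟩ := (hA (XX A) (MM A) (DD A) DD_deriv).finite a hε
    have h3 : ∑ i, lam i (a i)
        = - ∑ i, (DD A (a i) - ((MM A).dl (a i) Φ - (MM A).dr (a i) Ψ)) (p i) := by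
      have h4 : ∀ i, (DD A (a i) - ((MM A).dl (a i) Φ - (MM A).dr (a i) Ψ)) (p i)
          = - lam i (a i) - (Φ (ract (a i) (p i)) - Ψ (lact (a i) (p i))) := fun i => rfl
      simp only [h4, Finset.sum_sub_distrib, ← map_sum, hr, hl, map_zero]
      simp
    rw [h3, norm_neg, Finset.mul_sum]
    refine (norm_sum_le _ _).trans (Finset.sum_le_sum (fun i _ => ?_))
    refine (ContinuousLinearMap.le_opNorm _ _).trans ?_
    exact mul_le_mul_of_nonneg_right (h i).le (norm_nonneg _)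
  by_contra hne
  have hpos : 0 < ‖∑ i, lam i (a i)‖ := norm_pos_iff.2 hne
  have hS : 0 ≤ ∑ i, ‖p i‖ := Finset.sum_nonneg (fun i _ => norm_nonneg _)
  have h5 := key (‖∑ i, lam i (a i)‖ / (2 * (∑ i, ‖p i‖ + 1))) (by positivity)
  have h6 : ‖∑ i, lam i (a i)‖ / (2 * (∑ i, ‖p i‖ + 1)) * ∑ i, ‖p i‖
      < ‖∑ i, lam i (a i)‖ := by
    rw [div_mul_eq_mul_div, div_lt_iff₀ (by positivity)]
    nlinarith
  linarith

/-- An algebra has a right approximate identity: consequence of approximate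
semi-amenability. -/
theorem ASA.rai (hA : ASA A) {ι : Type*} [Fintype ι] (a : ι → A) {ε : ℝ} (hε : 0 < ε) :
    ∃ u, ∀ i, ‖a i - a i * u‖ < ε := by
  let T : A →ₗ[ℂ] (ι → A) :=
    { toFun := fun u i => a i * u
      map_add' := fun u v => by ext i; exact mul_add _ _ _
      map_smul' := fun c u => by ext i; exact mul_smul_comm _ _ _ }
  refine approx_of_dual_pi T a (fun f hf => ?_) hε
  refine hA.weak a (fun i => ((ContinuousLinearMap.compL ℂ A A ℂ) (f i)).comp
    (ContinuousLinearMap.mul ℂ A)) f (fun x y => ?_) (fun y => ?_) (fun x y => ?_) (fun y => ?_)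
  · change ∑ i, f i (a i * x * y) = 0
    simp only [mul_assoc]
    exact hf (x * y)
  · exact hf y
  · change ∑ i, f i (x * (y * a i)) = ∑ i, f i (x * y * a i)
    simp only [mul_assoc]
  · rfl

/-- An algebra has a left approximate identity: consequence of approximate
semi-amenability. -/
theorem ASA.lai (hA : ASA A) {ι : Type*} [Fintype ι] (a : ι → A) {ε : ℝ} (hε : 0 < ε) :
    ∃ u, ∀ i, ‖a i - u * a i‖ < ε := by
  let T : A →ₗ[ℂ] (ι → A) :=
    { toFun := fun u i => u * a i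
      map_add' := fun u v => by ext i; exact add_mul _ _ _
      map_smul' := fun c u => by ext i; exact smul_mul_assoc _ _ _ }
  refine approx_of_dual_pi T a (fun f hf => ?_) hε
  refine hA.weak a (fun i => 0) f (fun x y => by simp) (fun y => by simp)
    (fun x y => by simp) (fun y => ?_)
  have := hf y
  simp only [zero_apply, Finset.sum_const_zero]
  exact this.symm

/-- The criterion for approximate semi-amenability. -/
theorem ASA.crit (hA : ASA A) {ι : Type*} [Fintype ι] (a : ι → A)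
    (β : ι → A →L[ℂ] A →L[ℂ] ℂ) (lam : ι → StrongDual ℂ A)
    (h1 : ∀ x y, ∑ i, β i (a i * x) y = 0)
    (h2 : ∀ x y, ∑ i, β i x (y * a i) = ∑ i, lam i (x * y * a i)) : ∑ i, lam i (a i) = 0 := by
  -- approximate identities
  have hR : ∀ n : ℕ, ∃ u, ∀ i, ‖a i - a i * u‖ < 1 / ((n : ℝ) + 1) :=
    fun n => hA.rai a (by positivity)
  have hL : ∀ n : ℕ, ∃ u, ∀ i, ‖a i - u * a i‖ < 1 / ((n : ℝ) + 1) :=
    fun n => hA.lai a (by positivity)
  choose u hu using hR
  choose v hv using hL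
  have hu' : ∀ i, Tendsto (fun n => a i * u n) atTop (𝓝 (a i)) := by
    intro i
    rw [tendsto_iff_norm_sub_tendsto_zero]
    refine squeeze_zero (fun n => norm_nonneg _) (fun n => ?_)
      (tendsto_one_div_add_atTop_nhds_zero_nat (𝕜 := ℝ))
    rw [norm_sub_rev]; exact (hu n i).le
  have hv' : ∀ i, Tendsto (fun n => v n * a i) atTop (𝓝 (a i)) := by
    intro i
    rw [tendsto_iff_norm_sub_tendsto_zero]
    refine squeeze_zero (fun n => norm_nonneg _) (fun n => ?_)
      (tendsto_one_div_add_atTop_nhds_zero_nat (𝕜 := ℝ))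
    rw [norm_sub_rev]; exact (hv n i).le
  have h1' : ∀ y, ∑ i, β i (a i) y = 0 := by
    intro y
    have ht : Tendsto (fun n => ∑ i, β i (a i * u n) y) atTop (𝓝 (∑ i, β i (a i) y)) := by
      refine tendsto_finsetSum _ (fun i _ => ?_)
      exact (((β i).flip y).continuous.tendsto (a i)).comp (hu' i)
    have h0 : ∀ n, ∑ i, β i (a i * u n) y = 0 := fun n => h1 (u n) y
    simp only [h0] at ht
    exact (tendsto_nhds_unique ht tendsto_const_nhds)
  have h2' : ∀ y, ∑ i, β i y (a i) = ∑ i, lam i (y * a i) := by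
    intro y
    have ht : Tendsto (fun n => ∑ i, β i y (v n * a i)) atTop (𝓝 (∑ i, β i y (a i))) := by
      refine tendsto_finsetSum _ (fun i _ => ?_)
      exact ((β i y).continuous.tendsto (a i)).comp (hv' i)
    have ht2 : Tendsto (fun n => ∑ i, lam i (y * (v n * a i))) atTop
        (𝓝 (∑ i, lam i (y * a i))) := by
      refine tendsto_finsetSum _ (fun i _ => ?_)
      exact ((lam i).continuous.tendsto _).comp ((hv' i).const_mul y)
    have h0 : ∀ n, ∑ i, β i y (v n * a i) = ∑ i, lam i (y * (v n * a i)) := fun n => by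
      rw [h2 y (v n)]
      simp only [mul_assoc]
    simp only [h0] at ht
    exact (tendsto_nhds_unique ht ht2)
  refine hA.weak a β lam h1 h1' (fun x y => ?_) h2'
  rw [h2, h2' (x * y)]

/-- A slightly more general form of the criterion. -/
theorem ASA.crit' (hA : ASA A) {ι : Type*} [Fintype ι] (a : ι → A)
    (β : ι → A →L[ℂ] A →L[ℂ] ℂ) (lam μ : ι → StrongDual ℂ A)
    (h1 : ∀ x y, ∑ i, β i (a i * x) y = ∑ i, μ i (a i * x * y))
    (h2 : ∀ x y, ∑ i, β i x (y * a i) = ∑ i, lam i (x * y * a i)) :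
    ∑ i, lam i (a i) = ∑ i, μ i (a i) := by
  have h := hA.crit a (fun i => β i - ((ContinuousLinearMap.compL ℂ A A ℂ) (μ i)).comp
    (ContinuousLinearMap.mul ℂ A)) (fun i => lam i - μ i) (fun x y => by
      change ∑ i, (β i (a i * x) y - μ i (a i * x * y)) = 0
      rw [Finset.sum_sub_distrib, h1, sub_self]) (fun x y => by
      change ∑ i, (β i x (y * a i) - μ i (x * (y * a i)))
        = ∑ i, (lam i (x * y * a i) - μ i (x * y * a i))
      simp only [Finset.sum_sub_distrib, h2, mul_assoc])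
  have h3 : ∑ i, (lam i (a i) - μ i (a i)) = 0 := h
  rw [Finset.sum_sub_distrib] at h3
  exact sub_eq_zero.1 h3

omit [IsScalarTower ℂ A A] [SMulCommClass ℂ A A] in
/-- Conversely, the criterion implies approximate semi-amenability. -/
theorem asa_of_crit
    (h : ∀ (ι : Type u) [Fintype ι] (a : ι → A) (β : ι → A →L[ℂ] A →L[ℂ] ℂ)
      (lam : ι → StrongDual ℂ A), (∀ x y, ∑ i, β i (a i * x) y = 0) →
      (∀ x y, ∑ i, β i x (y * a i) = ∑ i, lam i (x * y * a i)) → ∑ i, lam i (a i) = 0) :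
    ASA A := by
  intro X _ _ _ M D hD
  refine Bimod.isApproxSemiInner_of_finite (fun ι _ a ε hε => ?_)
  let T : (StrongDual ℂ X × StrongDual ℂ X) →ₗ[ℂ] (ι → StrongDual ℂ X) :=
    { toFun := fun w i => M.dl (a i) w.1 - M.dr (a i) w.2
      map_add' := fun w w' => by
        ext i x
        change (w.1 + w'.1) (M.r (a i) x) - (w.2 + w'.2) (M.l (a i) x)
          = (w.1 (M.r (a i) x) - w.2 (M.l (a i) x)) + (w'.1 (M.r (a i) x) - w'.2 (M.l (a i) x))
        rw [add_apply, add_apply]; ring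
      map_smul' := fun c w => by
        ext i x
        change (c • w.1) (M.r (a i) x) - (c • w.2) (M.l (a i) x)
          = c • (w.1 (M.r (a i) x) - w.2 (M.l (a i) x))
        rw [smul_apply, smul_apply, smul_sub] }
  suffices hkey : ∀ Θ : ι → StrongDual ℂ (StrongDual ℂ X), (∀ w, ∑ i, Θ i (T w i) = 0) →
      ∑ i, Θ i (D (a i)) = 0 by
    obtain ⟨w, hw⟩ := approx_of_dual_pi T (fun i => D (a i)) hkey hε
    exact ⟨w.1, w.2, hw⟩
  intro Θ hΘ
  -- the two orthogonality relations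
  have hξ : ∀ ξ : StrongDual ℂ X, ∑ i, Θ i (M.dl (a i) ξ) = 0 := by
    intro ξ
    have h3 := hΘ (ξ, 0)
    have h4 : ∀ i, T (ξ, 0) i = M.dl (a i) ξ := by
      intro i
      ext x
      change ξ (M.r (a i) x) - 0 = ξ (M.r (a i) x)
      rw [sub_zero]
    simpa only [h4] using h3
  have hη : ∀ η : StrongDual ℂ X, ∑ i, Θ i (M.dr (a i) η) = 0 := by
    intro η
    have h3 := hΘ (0, η)
    have h4 : ∀ i, T (0, η) i = - M.dr (a i) η := by
      intro i
      ext x
      change 0 - η (M.l (a i) x) = - η (M.l (a i) x)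
      rw [zero_sub]
    simp only [h4, map_neg, Finset.sum_neg_distrib] at h3
    exact neg_eq_zero.1 h3
  -- the action of `A` on `X*` as a bounded bilinear map
  let act : A →L[ℂ] StrongDual ℂ X →L[ℂ] StrongDual ℂ X :=
    (((ContinuousLinearMap.compL ℂ X X ℂ).flip).comp M.r)
  have hact : ∀ x f, act x f = M.dl x f := fun x f => rfl
  let β : ι → A →L[ℂ] A →L[ℂ] ℂ := fun i =>
    (((ContinuousLinearMap.compL ℂ A (StrongDual ℂ X) ℂ) (Θ i)).comp
      (((ContinuousLinearMap.compL ℂ A (StrongDual ℂ X) (StrongDual ℂ X)).flip D).comp act))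
  have hβ : ∀ i x y, β i x y = Θ i (M.dl x (D y)) := fun i x y => rfl
  refine h ι a β (fun i => (Θ i).comp D) (fun x y => ?_) (fun x y => ?_)
  · have h3 : ∀ i, β i (a i * x) y = Θ i (M.dl (a i) (M.dl x (D y))) := by
      intro i
      rw [hβ]
      congr 1
      ext z
      change D y (M.r (a i * x) z) = D y (M.r x (M.r (a i) z))
      rw [M.r_mul]
    simp only [h3]
    exact hξ _
  · have h3 : ∀ i, β i x (y * a i) = Θ i (M.dl (x * y) (D (a i)))
        + Θ i (M.dr (a i) (M.dl x (D y))) := by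
      intro i
      rw [hβ, hD, ← map_add]
      congr 1
      ext z
      change (D (a i)) (M.r y (M.r x z)) + D y (M.l (a i) (M.r x z))
        = D (a i) (M.r (x * y) z) + D y (M.r x (M.l (a i) z))
      rw [M.r_mul, M.comm]
    have h4 : ∀ i, ((Θ i).comp D) (x * y * a i) = Θ i (M.dl (x * y) (D (a i)))
        + Θ i (M.dr (a i) (D (x * y))) := by
      intro i
      change Θ i (D (x * y * a i)) = _
      rw [hD, map_add]
    simp only [h3, h4, Finset.sum_add_distrib, hη]

end Criterion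

end

end Pool.Agent.V1192.SemiAmen
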