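import Mathlib

/-!
# The combinatorial part: almost multiplicative functionals on finite vector spaces
-/

open Finset

namespace Pool.Agent.V1192.UOD

noncomputable section

variable {p : ℕ} [Fact p.Prime] {N : ℕ}

variable (p N) in
/-- The finite vector space. -/
abbrev V : Type := Fin N → ZMod p

/-- The weight of a vector outside a set of coordinates. -/
def wt (J : Finset (Fin N)) (v : V p N) : ℕ :=
  (univ.filter (fun j => j ∉ J ∧ v j ≠ 0)).card

theorem wt_zero (J : Finset (Fin N)) : wt J (0 : V p N) = 0 := by simp [wt]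

theorem wt_neg (J : Finset (Fin N)) (v : V p N) : wt J (-v) = wt J v := by simp [wt]

theorem wt_add (J : Finset (Fin N)) (u v : V p N) : wt J (u + v) ≤ wt J u + wt J v := by
  classical
  unfold wt
  refine (card_le_card ?_).trans (card_union_le _ _)
  intro j hj
  simp only [mem_filter, mem_univ, true_and, mem_union, Pi.add_apply] at hj ⊢
  by_contra hcon
  push Not at hcon
  exact hj.2 (by rw [hcon.1 hj.1, hcon.2 hj.1, add_zero])

/-- Monotonicity of the weight. -/
theorem wt_mono {J J' : Finset (Fin N)} {u v : V p N}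
    (h : ∀ j, j ∉ J' → u j ≠ 0 → j ∉ J ∧ v j ≠ 0) : wt J' u ≤ wt J v := by
  unfold wt
  refine card_le_card ?_
  intro j hj
  simp only [mem_filter, mem_univ, true_and] at hj ⊢
  exact h j hj.1 hj.2

/-- The distance of a vector to the span of `S`, modulo the coordinates in `J`. -/
def dst (J : Finset (Fin N)) (S : Finset (V p N)) (v : V p N) : ℕ :=
  sInf {n | ∃ l ∈ Submodule.span (ZMod p) (S : Set (V p N)), wt J (v - l) = n}

variable {J : Finset (Fin N)} {S : Finset (V p N)}

theorem dst_le {v l : V p N} (hl : l ∈ Submodule.span (ZMod p) (S : Set (V p N))) :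
    dst J S v ≤ wt J (v - l) := Nat.sInf_le ⟨l, hl, rfl⟩

theorem exists_dst (J : Finset (Fin N)) (S : Finset (V p N)) (v : V p N) :
    ∃ l ∈ Submodule.span (ZMod p) (S : Set (V p N)), wt J (v - l) = dst J S v :=
  Nat.sInf_mem (s := {n | ∃ l ∈ Submodule.span (ZMod p) (S : Set (V p N)), wt J (v - l) = n})
    ⟨_, 0, Submodule.zero_mem _, rfl⟩

theorem dst_zero : dst J S (0 : V p N) = 0 := by
  have := dst_le (J := J) (S := S) (v := 0) (Submodule.zero_mem _)
  rw [sub_zero, wt_zero] at this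
  omega

theorem dst_le_wt (v : V p N) : dst J S v ≤ wt J v := by
  have := dst_le (J := J) (S := S) (v := v) (Submodule.zero_mem _)
  rwa [sub_zero] at this

theorem dst_neg (v : V p N) : dst J S (-v) = dst J S v := by
  have h : ∀ v : V p N, dst J S (-v) ≤ dst J S v := by
    intro v
    obtain ⟨l, hl, h⟩ := exists_dst J S v
    rw [← h]
    refine (dst_le (Submodule.neg_mem _ hl)).trans ?_
    rw [← wt_neg J (v - l)]
    apply le_of_eq
    congr 1
    abel
  refine le_antisymm (h v) ?_
  have := h (-v)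
  rwa [neg_neg] at this

theorem dst_add (u v : V p N) : dst J S (u + v) ≤ dst J S u + dst J S v := by
  obtain ⟨l, hl, h⟩ := exists_dst J S u
  obtain ⟨l', hl', h'⟩ := exists_dst J S v
  rw [← h, ← h']
  refine (dst_le (Submodule.add_mem _ hl hl')).trans ?_
  have : u + v - (l + l') = (u - l) + (v - l') := by abel
  rw [this]
  exact wt_add _ _ _

theorem dst_mono_J {J' : Finset (Fin N)} (h : J ⊆ J') (v : V p N) : dst J' S v ≤ dst J S v := by
  obtain ⟨l, hl, hv⟩ := exists_dst J S v
  rw [← hv]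
  exact (dst_le hl).trans (wt_mono (fun j hj h0 => ⟨fun hJ => hj (h hJ), h0⟩))

theorem dst_mono_S {S' : Finset (V p N)} (h : S ⊆ S') (v : V p N) : dst J S' v ≤ dst J S v := by
  obtain ⟨l, hl, hv⟩ := exists_dst J S v
  rw [← hv]
  exact dst_le (Submodule.span_mono (by exact_mod_cast h) hl)

theorem dst_insert (g h : V p N) [DecidableEq (V p N)] :
    dst J (insert h S) g ≤ dst J S (g + h) := by
  obtain ⟨l, hl, hv⟩ := exists_dst J S (g + h)
  rw [← hv]
  have : g + h - l = g - (l - h) := by abel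
  rw [this]
  refine dst_le ?_
  apply Submodule.sub_mem
  · exact Submodule.span_mono (by simp) hl
  · exact Submodule.subset_span (by simp)

/-- The mass functional. -/
def Phi (μ : V p N → ℝ) (J : Finset (Fin N)) (S : Finset (V p N)) : ℝ :=
  ∑ v, μ v * (1 / 2) ^ dst J S v

/-- The penalised functional. -/
def Psi (μ : V p N → ℝ) (M : ℕ) (η : ℝ) (q : Finset (Fin N) × Finset (V p N)) : ℝ :=
  Phi μ q.1 q.2 - η * ((q.1.card : ℝ) + (M + 1) * q.2.card)

theorem half_pow_le {a b : ℕ} (h : a ≤ b) : (1 / 2 : ℝ) ^ b ≤ (1 / 2) ^ a :=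
  pow_le_pow_of_le_one (by norm_num) (by norm_num) h

theorem Phi_mono {μ : V p N → ℝ} (hμ : ∀ v, 0 ≤ μ v) {J' : Finset (Fin N)}
    {S' : Finset (V p N)} (h : ∀ v, dst J' S' v ≤ dst J S v) : Phi μ J S ≤ Phi μ J' S' :=
  sum_le_sum (fun v _ => mul_le_mul_of_nonneg_left (half_pow_le (h v)) (hμ v))

/-- Vectors in the span with small weight vanish. -/
theorem span_small {μ : V p N → ℝ} (hμ : ∀ v, 0 ≤ μ v) {M : ℕ} {η : ℝ} (hη : 0 < η)
    (hmax : ∀ q, Psi μ M η q ≤ Psi μ M η (J, S)) {l : V p N}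
    (hl : l ∈ Submodule.span (ZMod p) (S : Set (V p N))) (hw : wt J l ≤ M) : l = 0 := by
  classical
  obtain ⟨c, hcS, hc⟩ := Submodule.mem_span_finset.1 hl
  by_contra hne
  obtain ⟨s₀, hs₀, hcs₀⟩ : ∃ s₀ ∈ S, c s₀ ≠ 0 := by
    by_contra hcon
    push Not at hcon
    apply hne
    rw [← hc]
    exact sum_eq_zero (fun a ha => by rw [hcon a ha, zero_smul])
  set J' := J ∪ univ.filter (fun j => j ∉ J ∧ l j ≠ 0) with hJ'
  set S' := S.erase s₀ with hS'
  have hdst : ∀ v, dst J' S' v ≤ dst J S v := by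
    intro v
    obtain ⟨lv, hlv, hv⟩ := exists_dst J S v
    obtain ⟨d, hdS, hd⟩ := Submodule.mem_span_finset.1 hlv
    set t : ZMod p := d s₀ / c s₀ with ht
    have hmem : lv - t • l ∈ Submodule.span (ZMod p) (S' : Set (V p N)) := by
      have h1 : lv - t • l = ∑ a ∈ S', (d a - t * c a) • a := by
        rw [← hd, ← hc, smul_sum, ← sum_sub_distrib, hS', ← sum_erase]
        · refine sum_congr rfl (fun a _ => ?_)
          rw [sub_smul, mul_smul]
        · have : t * c s₀ = d s₀ := by rw [ht]; field_simp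
          rw [smul_smul, this, sub_self]
      rw [h1]
      exact Submodule.sum_mem _ (fun a ha => Submodule.smul_mem _ _
        (Submodule.subset_span (by exact_mod_cast ha)))
    refine (dst_le hmem).trans ?_
    rw [← hv]
    refine wt_mono (fun j hj h0 => ?_)
    have hjJ : j ∉ J := fun h => hj (by rw [hJ']; exact mem_union_left _ h)
    have hlj : l j = 0 := by
      by_contra h
      exact hj (by rw [hJ']; exact mem_union_right _ (by simp [hjJ, h]))
    refine ⟨hjJ, ?_⟩
    intro h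
    apply h0
    have : (v - (lv - t • l)) j = (v - lv) j + t * l j := by
      simp only [Pi.sub_apply, Pi.smul_apply, smul_eq_mul]; ring
    rw [this, h, hlj]; simp
  have h1 := Phi_mono hμ hdst
  have h2 := hmax (J', S')
  have h3 : (J'.card : ℝ) ≤ J.card + M := by
    have h4 := (card_union_le J (univ.filter (fun j => j ∉ J ∧ l j ≠ 0))).trans
      (Nat.add_le_add_left hw _)
    exact_mod_cast h4
  have h4 : (S'.card : ℝ) + 1 = S.card := by
    have h5 : S'.card + 1 = S.card := card_erase_add_one hs₀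
    exact_mod_cast h5
  simp only [Psi] at h2
  have h5 : ((M : ℝ) + 1) * S.card = (M + 1) * S'.card + (M + 1) := by rw [← h4]; ring
  have h6 : (J'.card : ℝ) + (M + 1) * S'.card + 1 ≤ J.card + (M + 1) * S.card := by linarith
  have h7 := mul_le_mul_of_nonneg_left h6 hη.le
  have h8 : η * ((J'.card : ℝ) + (M + 1) * S'.card + 1)
      = η * ((J'.card : ℝ) + (M + 1) * S'.card) + η := by ring
  linarith

theorem Phi_nonneg {μ : V p N → ℝ} (hμ : ∀ v, 0 ≤ μ v) (J : Finset (Fin N))
    (S : Finset (V p N)) : 0 ≤ Phi μ J S :=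
  sum_nonneg (fun v _ => mul_nonneg (hμ v) (by positivity))

theorem Phi_le {μ : V p N → ℝ} (hμ : ∀ v, 0 ≤ μ v) (J : Finset (Fin N))
    (S : Finset (V p N)) : Phi μ J S ≤ ∑ v, μ v := by
  refine sum_le_sum (fun v _ => mul_le_of_le_one_right (hμ v) ?_)
  exact pow_le_one₀ (by norm_num) (by norm_num)

theorem exists_max (μ : V p N → ℝ) (M : ℕ) (η : ℝ) :
    ∃ q : Finset (Fin N) × Finset (V p N), ∀ q', Psi μ M η q' ≤ Psi μ M η q :=
  Finite.exists_max _

section Main

variable {μ : V p N → ℝ} {M : ℕ} {η : ℝ}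

/-- The size of `J` for a maximiser. -/
theorem card_J_le (hμ : ∀ v, 0 ≤ μ v) (hη : 0 < η)
    (hmax : ∀ q, Psi μ M η q ≤ Psi μ M η (J, S)) : η * (J.card : ℝ) ≤ ∑ v, μ v := by
  have h1 := hmax (∅, ∅)
  simp only [Psi, card_empty, Nat.cast_zero, mul_zero, add_zero, sub_zero] at h1
  have h2 := Phi_nonneg hμ (∅ : Finset (Fin N)) (∅ : Finset (V p N))
  have h3 := Phi_le hμ J S
  have h4 : 0 ≤ η * (((M : ℝ) + 1) * S.card) := by positivity
  have h5 : η * ((J.card : ℝ) + (M + 1) * S.card)
      = η * J.card + η * (((M : ℝ) + 1) * S.card) := by ring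
  linarith

/-- Optimality with respect to adding a vector. -/
theorem opt_vec [DecidableEq (V p N)] (hη : 0 < η)
    (hmax : ∀ q, Psi μ M η q ≤ Psi μ M η (J, S)) (h : V p N) :
    Phi μ J (insert h S) - Phi μ J S ≤ η * (M + 1) := by
  have h1 := hmax (J, insert h S)
  simp only [Psi] at h1
  have h2 : ((insert h S).card : ℝ) ≤ S.card + 1 := by exact_mod_cast card_insert_le h S
  have h3 : ((M : ℝ) + 1) * (insert h S).card ≤ (M + 1) * (S.card + 1) :=
    mul_le_mul_of_nonneg_left h2 (by positivity)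
  have h4 := mul_le_mul_of_nonneg_left h3 hη.le
  nlinarith

/-- Optimality with respect to adding a coordinate. -/
theorem opt_coord (hη : 0 < η)
    (hmax : ∀ q, Psi μ M η q ≤ Psi μ M η (J, S)) (j : Fin N) :
    Phi μ (insert j J) S - Phi μ J S ≤ η := by
  have h1 := hmax (insert j J, S)
  simp only [Psi] at h1
  have h2 : ((insert j J).card : ℝ) ≤ J.card + 1 := by exact_mod_cast card_insert_le j J
  have h4 := mul_le_mul_of_nonneg_left h2 hη.le
  nlinarith

/-- A nearest point of the span. -/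
def near (J : Finset (Fin N)) (S : Finset (V p N)) (v : V p N) : V p N :=
  (exists_dst J S v).choose

theorem near_mem (v : V p N) : near J S v ∈ Submodule.span (ZMod p) (S : Set (V p N)) :=
  (exists_dst J S v).choose_spec.1

theorem near_wt (v : V p N) : wt J (v - near J S v) = dst J S v :=
  (exists_dst J S v).choose_spec.2

/-- The coordinates of `v` relative to its nearest point. -/
def sup (J : Finset (Fin N)) (S : Finset (V p N)) (v : V p N) : Finset (Fin N) :=
  univ.filter (fun j => j ∉ J ∧ (v - near J S v) j ≠ 0)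

theorem sup_card (v : V p N) : (sup J S v).card = dst J S v := near_wt v

theorem dst_insert_coord {v : V p N} {j : Fin N} (hj : j ∈ sup J S v) :
    dst (insert j J) S v + 1 ≤ dst J S v := by
  classical
  rw [← sup_card (J := J) (S := S) v, ← card_erase_add_one hj]
  refine Nat.add_le_add_right ((dst_le (near_mem (J := J) (S := S) v)).trans ?_) 1
  unfold wt
  refine card_le_card ?_
  intro i hi
  simp only [mem_filter, mem_univ, true_and, mem_insert, not_or] at hi
  rw [mem_erase, sup, mem_filter]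
  exact ⟨hi.1.1, mem_univ _, hi.1.2, hi.2⟩

/-- Few vectors see a given coordinate. -/
theorem coord_mass (hμ : ∀ v, 0 ≤ μ v) (hη : 0 < η)
    (hmax : ∀ q, Psi μ M η q ≤ Psi μ M η (J, S)) (j : Fin N) :
    ∑ v ∈ univ.filter (fun v => j ∈ sup J S v), μ v * (1 / 2) ^ dst J S v ≤ η := by
  classical
  refine le_trans ?_ (opt_coord hη hmax j)
  rw [Phi, Phi, ← sum_sub_distrib]
  refine le_trans ?_ (sum_le_sum_of_subset_of_nonneg (filter_subset (fun v => j ∈ sup J S v) univ)
    (fun v _ _ => ?_))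
  · refine sum_le_sum (fun v hv => ?_)
    have hv' : j ∈ sup J S v := (mem_filter.1 hv).2
    have h1 := dst_insert_coord hv'
    have h2 : (2 : ℝ) * (1 / 2) ^ dst J S v ≤ (1 / 2) ^ dst (insert j J) S v := by
      have h3 := half_pow_le h1
      rw [pow_succ] at h3
      have h4 : (0 : ℝ) ≤ (1 / 2) ^ dst J S v := by positivity
      -- `(1/2)^d ≤ (1/2)^(d'+1)`
      have h5 : (1 / 2 : ℝ) ^ dst J S v ≤ (1 / 2) ^ dst (insert j J) S v * (1 / 2) := h3
      linarith
    have h3 := mul_le_mul_of_nonneg_left h2 (hμ v)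
    linarith
  · have h1 := mul_le_mul_of_nonneg_left
      (half_pow_le (dst_mono_J (S := S) (subset_insert j J) v)) (hμ v)
    linarith

/-- Pointwise estimate for heavy `h`. -/
theorem heavy_pointwise [DecidableEq (V p N)] {k : ℕ} (g h : V p N) (hh : 2 * k < dst J S h) :
    (1 / 2 : ℝ) ^ dst J S (g + h)
      ≤ ((1 / 2) ^ dst J (insert h S) g - (1 / 2) ^ dst J S g) + (1 / 2) ^ k := by
  have h1 : dst J S h ≤ dst J S g + dst J S (g + h) := by
    have h2 := dst_add (J := J) (S := S) (-g) (g + h)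
    rw [neg_add_cancel_left, dst_neg] at h2
    exact h2
  have h2 : (1 / 2 : ℝ) ^ dst J S g ≤ (1 / 2) ^ dst J (insert h S) g :=
    half_pow_le (dst_mono_S (subset_insert h S) g)
  by_cases hk : k ≤ dst J S (g + h)
  · have h3 := half_pow_le hk
    linarith
  · have h3 := half_pow_le (show k ≤ dst J S g by omega)
    have h4 := half_pow_le (dst_insert (J := J) (S := S) g h)
    linarith

/-- The total error from heavy `h`. -/
theorem heavy_mass [DecidableEq (V p N)] (hη : 0 < η)
    (hmax : ∀ q, Psi μ M η q ≤ Psi μ M η (J, S)) {k : ℕ} {x : V p N → ℝ}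
    (hx : ∀ v, 0 ≤ x v) (hxμ : ∀ v, x v ≤ μ v) (h : V p N) (hh : 2 * k < dst J S h) :
    ∑ g, x g * (1 / 2) ^ dst J S (g + h) ≤ η * (M + 1) + (∑ g, x g) * (1 / 2) ^ k := by
  have h1 := opt_vec hη hmax h
  rw [Phi, Phi, ← sum_sub_distrib] at h1
  calc ∑ g, x g * (1 / 2) ^ dst J S (g + h)
      ≤ ∑ g, ((μ g * (1 / 2) ^ dst J (insert h S) g - μ g * (1 / 2) ^ dst J S g)
          + x g * (1 / 2) ^ k) := by
        refine sum_le_sum (fun g _ => ?_)
        have h2 := mul_le_mul_of_nonneg_left (heavy_pointwise (J := J) (S := S) g h hh) (hx g)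
        have h3 : (1 / 2 : ℝ) ^ dst J S g ≤ (1 / 2) ^ dst J (insert h S) g :=
          half_pow_le (dst_mono_S (subset_insert h S) g)
        have h4 := mul_le_mul_of_nonneg_right (hxμ g) (sub_nonneg.2 h3)
        nlinarith
    _ ≤ _ := by
        rw [sum_add_distrib, ← sum_mul]
        linarith

/-- Light vectors with disjoint supports. -/
theorem light_add (hμ : ∀ v, 0 ≤ μ v) (hη : 0 < η) {k : ℕ} (hM : 8 * k ≤ M)
    (hmax : ∀ q, Psi μ M η q ≤ Psi μ M η (J, S)) {g h : V p N} (hg : dst J S g ≤ 2 * k)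
    (hh : dst J S h ≤ 2 * k) (hne : dst J S (g + h) ≠ dst J S g + dst J S h) :
    ∃ j, j ∈ sup J S g ∧ j ∈ sup J S h := by
  classical
  by_contra hcon
  push Not at hcon
  apply hne
  refine le_antisymm (dst_add g h) ?_
  set l := near J S g with hl
  set l' := near J S h with hl'
  set l2 := near J S (g + h) with hl2
  have h1 : l2 - (l + l') = 0 := by
    refine span_small hμ hη hmax (Submodule.sub_mem _ (near_mem _)
      (Submodule.add_mem _ (near_mem _) (near_mem _))) ?_
    have h2 : l2 - (l + l') = ((g - l) + (h - l')) + (-((g + h) - l2)) := by abel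
    rw [h2]
    have h3 := wt_add J ((g - l) + (h - l')) (-((g + h) - l2))
    have h4 := wt_add J (g - l) (h - l')
    rw [wt_neg] at h3
    have h5 : wt J (g - l) = dst J S g := near_wt g
    have h6 : wt J (h - l') = dst J S h := near_wt h
    have h7 : wt J (g + h - l2) = dst J S (g + h) := near_wt (g + h)
    have h8 := dst_add (J := J) (S := S) g h
    omega
  have h2 : l2 = l + l' := sub_eq_zero.1 h1
  have h3 : dst J S (g + h) = wt J ((g - l) + (h - l')) := by
    rw [← near_wt (g + h)]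
    change wt J (g + h - l2) = _
    rw [h2]
    congr 1
    abel
  rw [h3, ← sup_card (J := J) (S := S) g, ← sup_card (J := J) (S := S) h,
    ← card_union_of_disjoint (disjoint_left.2 hcon)]
  unfold wt
  refine card_le_card ?_
  intro j hj
  rw [mem_union] at hj
  simp only [mem_filter, mem_univ, true_and, Pi.add_apply]
  rcases hj with hj | hj
  · have h4 : j ∉ sup J S h := hcon j hj
    simp only [sup, mem_filter, mem_univ, true_and, not_and, not_not] at hj h4
    refine ⟨hj.1, ?_⟩
    have h5 : (h - l') j = 0 := h4 hj.1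
    rw [h5, add_zero]
    exact hj.2
  · have h4 : j ∉ sup J S g := fun h => hcon j h hj
    simp only [sup, mem_filter, mem_univ, true_and, not_and, not_not] at hj h4
    refine ⟨hj.1, ?_⟩
    have h5 : (g - l) j = 0 := h4 hj.1
    rw [h5, zero_add]
    exact hj.2

/-- The error function. -/
def BB (J : Finset (Fin N)) (S : Finset (V p N)) (g h : V p N) : ℝ :=
  if dst J S (g + h) = dst J S g + dst J S h then 0 else (1 / 2) ^ dst J S (g + h)

open Classical in
/-- The overlap indicator. -/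
def AA (J : Finset (Fin N)) (S : Finset (V p N)) (k : ℕ) (g h : V p N) : ℝ :=
  if dst J S g ≤ 2 * k ∧ dst J S h ≤ 2 * k ∧ ∃ j, j ∈ sup J S g ∧ j ∈ sup J S h then 1 else 0

/-- The heavy part. -/
def RR (J : Finset (Fin N)) (S : Finset (V p N)) (k : ℕ) (g h : V p N) : ℝ :=
  if 2 * k < dst J S h then (1 / 2) ^ dst J S (g + h) else 0

theorem BB_le (hμ : ∀ v, 0 ≤ μ v) (hη : 0 < η) {k : ℕ} (hM : 8 * k ≤ M)
    (hmax : ∀ q, Psi μ M η q ≤ Psi μ M η (J, S)) (g h : V p N) :
    BB J S g h ≤ AA J S k g h + RR J S k g h + RR J S k h g := by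
  unfold BB AA RR
  have h0 : (0 : ℝ) ≤ (1 / 2) ^ dst J S (g + h) := by positivity
  have h0' : (1 / 2 : ℝ) ^ dst J S (g + h) ≤ 1 := pow_le_one₀ (by norm_num) (by norm_num)
  rw [add_comm h g]
  by_cases h1 : dst J S (g + h) = dst J S g + dst J S h
  · rw [if_pos h1]
    split_ifs <;> linarith
  · rw [if_neg h1]
    by_cases h2 : dst J S g ≤ 2 * k
    · by_cases h3 : dst J S h ≤ 2 * k
      · rw [if_pos ⟨h2, h3, light_add hμ hη hM hmax h2 h3 h1⟩]
        split_ifs <;> linarith
      · rw [if_pos (not_le.1 h3)]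
        split_ifs <;> linarith
    · rw [if_pos (not_le.1 h2)]
      split_ifs <;> linarith

theorem sum_AA_le (hμ : ∀ v, 0 ≤ μ v) (hη : 0 < η) (k : ℕ)
    (hmax : ∀ q, Psi μ M η q ≤ Psi μ M η (J, S)) {x : V p N → ℝ}
    (hxμ : ∀ v, x v ≤ μ v) (h : V p N) :
    ∑ g, x g * AA J S k g h ≤ 2 * k * 4 ^ k * η := by
  classical
  by_cases hh : dst J S h ≤ 2 * k
  · have h1 : ∀ g, x g * AA J S k g h
        ≤ ∑ j ∈ sup J S h, if j ∈ sup J S g then μ g * (1 / 2) ^ dst J S g * 4 ^ k else 0 := by
      intro g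
      unfold AA
      split_ifs with h2
      · obtain ⟨hg, -, j, hjg, hjh⟩ := h2
        rw [mul_one]
        refine le_trans ?_ (single_le_sum (f := fun j => if j ∈ sup J S g then
          μ g * (1 / 2) ^ dst J S g * 4 ^ k else (0 : ℝ)) (fun i _ => ?_) hjh)
        · simp only [if_pos hjg]
          have h3 : (1 : ℝ) ≤ (1 / 2) ^ dst J S g * 4 ^ k := by
            have h4 := half_pow_le hg
            have h5 : (1 / 2 : ℝ) ^ (2 * k) * 4 ^ k = 1 := by
              rw [pow_mul, ← mul_pow]; norm_num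
            calc (1 : ℝ) = (1 / 2) ^ (2 * k) * 4 ^ k := h5.symm
              _ ≤ _ := mul_le_mul_of_nonneg_right h4 (by positivity)
          calc x g ≤ μ g * 1 := by rw [mul_one]; exact hxμ g
            _ ≤ μ g * ((1 / 2) ^ dst J S g * 4 ^ k) := mul_le_mul_of_nonneg_left h3 (hμ g)
            _ = _ := by ring
        · have := hμ g
          split_ifs <;> positivity
      · rw [mul_zero]
        refine sum_nonneg (fun j _ => ?_)
        have := hμ g
        split_ifs <;> positivity
    calc ∑ g, x g * AA J S k g h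
        ≤ ∑ g, ∑ j ∈ sup J S h,
          if j ∈ sup J S g then μ g * (1 / 2) ^ dst J S g * 4 ^ k else 0 :=
          sum_le_sum (fun g _ => h1 g)
      _ = ∑ j ∈ sup J S h, ∑ g,
          if j ∈ sup J S g then μ g * (1 / 2) ^ dst J S g * 4 ^ k else 0 := sum_comm
      _ ≤ ∑ j ∈ sup J S h, η * 4 ^ k := by
          refine sum_le_sum (fun j _ => ?_)
          rw [← sum_filter, ← sum_mul]
          exact mul_le_mul_of_nonneg_right (coord_mass hμ hη hmax j) (by positivity)
      _ = (dst J S h : ℝ) * (η * 4 ^ k) := by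
          rw [sum_const, sup_card, nsmul_eq_mul]
      _ ≤ (2 * k : ℝ) * (η * 4 ^ k) := by
          refine mul_le_mul_of_nonneg_right ?_ (by positivity)
          exact_mod_cast hh
      _ = _ := by ring
  · have h1 : ∀ g, x g * AA J S k g h = 0 := by
      intro g
      unfold AA
      rw [if_neg (fun h2 => hh h2.2.1), mul_zero]
    simp only [h1, sum_const_zero]
    positivity

theorem sum_RR_le (hη : 0 < η)
    (hmax : ∀ q, Psi μ M η q ≤ Psi μ M η (J, S)) (k : ℕ) {x : V p N → ℝ}
    (hx : ∀ v, 0 ≤ x v) (hxμ : ∀ v, x v ≤ μ v) {C : ℝ} (hC : ∑ g, x g ≤ C) (h : V p N) :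
    ∑ g, x g * RR J S k g h ≤ η * (M + 1) + C * (1 / 2) ^ k := by
  classical
  have hC0 : 0 ≤ C := (sum_nonneg (fun g _ => hx g)).trans hC
  unfold RR
  by_cases hh : 2 * k < dst J S h
  · simp only [if_pos hh]
    refine (heavy_mass hη hmax hx hxμ h hh).trans ?_
    have := mul_le_mul_of_nonneg_right hC (by positivity : (0 : ℝ) ≤ (1 / 2) ^ k)
    linarith
  · simp only [if_neg hh, mul_zero, sum_const_zero]
    positivity

/-- The total error. -/
theorem total_error (hη : 0 < η) {k : ℕ} (hM : 8 * k ≤ M) {x y : V p N → ℝ}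
    (hx : ∀ v, 0 ≤ x v) (hy : ∀ v, 0 ≤ y v)
    (hmax : ∀ q, Psi (fun v => x v + y v) M η q ≤ Psi (fun v => x v + y v) M η (J, S))
    {C : ℝ} (hxC : ∑ g, x g ≤ C) (hyC : ∑ g, y g ≤ C) :
    ∑ g, ∑ h, x g * y h * BB J S g h
      ≤ C * (2 * k * 4 ^ k * η) + 2 * (C * (η * (M + 1) + C * (1 / 2) ^ k)) := by
  have hC0 : 0 ≤ C := (sum_nonneg (fun g _ => hx g)).trans hxC
  have hμ : ∀ v, 0 ≤ x v + y v := fun v => add_nonneg (hx v) (hy v)
  have e1 : ∑ g, ∑ h, x g * y h * BB J S g h
      ≤ ∑ g, ∑ h, (x g * y h * AA J S k g h + x g * y h * RR J S k g h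
        + x g * y h * RR J S k h g) := by
    refine sum_le_sum (fun g _ => sum_le_sum (fun h _ => ?_))
    have := mul_le_mul_of_nonneg_left (BB_le hμ hη hM hmax g h) (mul_nonneg (hx g) (hy h))
    linarith
  have e2 : ∑ g, ∑ h, x g * y h * AA J S k g h ≤ C * (2 * k * 4 ^ k * η) := by
    rw [sum_comm]
    calc ∑ h, ∑ g, x g * y h * AA J S k g h = ∑ h, y h * ∑ g, x g * AA J S k g h := by
          refine sum_congr rfl (fun h _ => ?_)
          rw [mul_sum]
          exact sum_congr rfl (fun g _ => by ring)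
      _ ≤ ∑ h, y h * (2 * k * 4 ^ k * η) := sum_le_sum (fun h _ =>
          mul_le_mul_of_nonneg_left (sum_AA_le hμ hη k hmax
            (fun v => le_add_of_nonneg_right (hy v)) h) (hy h))
      _ = (∑ h, y h) * (2 * k * 4 ^ k * η) := by rw [sum_mul]
      _ ≤ _ := mul_le_mul_of_nonneg_right hyC (by positivity)
  have e3 : ∑ g, ∑ h, x g * y h * RR J S k g h ≤ C * (η * (M + 1) + C * (1 / 2) ^ k) := by
    rw [sum_comm]
    calc ∑ h, ∑ g, x g * y h * RR J S k g h = ∑ h, y h * ∑ g, x g * RR J S k g h := by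
          refine sum_congr rfl (fun h _ => ?_)
          rw [mul_sum]
          exact sum_congr rfl (fun g _ => by ring)
      _ ≤ ∑ h, y h * (η * (M + 1) + C * (1 / 2) ^ k) := sum_le_sum (fun h _ =>
          mul_le_mul_of_nonneg_left (sum_RR_le hη hmax k hx
            (fun v => le_add_of_nonneg_right (hy v)) hxC h) (hy h))
      _ = (∑ h, y h) * (η * (M + 1) + C * (1 / 2) ^ k) := by rw [sum_mul]
      _ ≤ _ := mul_le_mul_of_nonneg_right hyC (by positivity)
  have e4 : ∑ g, ∑ h, x g * y h * RR J S k h g ≤ C * (η * (M + 1) + C * (1 / 2) ^ k) := by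
    calc ∑ g, ∑ h, x g * y h * RR J S k h g = ∑ g, x g * ∑ h, y h * RR J S k h g := by
          refine sum_congr rfl (fun g _ => ?_)
          rw [mul_sum]
          exact sum_congr rfl (fun h _ => by ring)
      _ ≤ ∑ g, x g * (η * (M + 1) + C * (1 / 2) ^ k) := sum_le_sum (fun g _ =>
          mul_le_mul_of_nonneg_left (sum_RR_le hη hmax k hy
            (fun v => le_add_of_nonneg_left (hx v)) hyC g) (hx g))
      _ = (∑ g, x g) * (η * (M + 1) + C * (1 / 2) ^ k) := by rw [sum_mul]
      _ ≤ _ := mul_le_mul_of_nonneg_right hxC (by positivity)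
  refine e1.trans ?_
  simp only [sum_add_distrib]
  linarith

end Main

/-- A Rouche type statement. -/
theorem rouche (P : ℂ → ℂ) (hP : Differentiable ℂ P) (h0 : ∀ z, ‖z‖ ≤ 1 / 2 → P z ≠ 0)
    (h1 : ∀ z, ‖z‖ = 1 / 2 → ‖P z - z‖ < 1 / 2) : False := by
  set F : ℂ → ℂ := fun z => Complex.exp (-(z / P z)) with hF
  have hd : DiffContOnCl ℂ F (Metric.ball 0 (1 / 2)) := by
    apply DifferentiableOn.diffContOnCl
    rw [closure_ball _ (by norm_num)]
    intro z hz
    have hz' : P z ≠ 0 := h0 z (by simpa using hz)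
    have : DifferentiableAt ℂ F z := by
      apply DifferentiableAt.cexp
      apply DifferentiableAt.neg
      exact differentiableAt_id.div (hP z) hz'
    exact this.differentiableWithinAt
  have hb : ∀ z ∈ frontier (Metric.ball (0 : ℂ) (1 / 2)), ‖F z‖ ≤ Real.exp (-(1 / 2)) := by
    intro z hz
    rw [frontier_ball _ (by norm_num), mem_sphere_zero_iff_norm] at hz
    rw [hF, Complex.norm_exp]
    apply Real.exp_le_exp.2
    rw [Complex.neg_re]
    apply neg_le_neg
    have hz0 : z ≠ 0 := by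
      rintro rfl
      norm_num at hz
    have hPz := h0 z hz.le
    set w := P z / z with hw
    have hw0 : w ≠ 0 := div_ne_zero hPz hz0
    have h2 : ‖w - 1‖ < 1 := by
      have : w - 1 = (P z - z) / z := by rw [hw]; field_simp
      rw [this, norm_div, hz, div_lt_one (by norm_num)]
      exact h1 z hz
    have h3 : z / P z = w⁻¹ := by rw [hw, inv_div]
    rw [h3, Complex.inv_re]
    have h4 : 0 < Complex.normSq w := Complex.normSq_pos.2 hw0
    rw [le_div_iff₀ h4]
    have h5 : Complex.normSq (w - 1) < 1 := by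
      rw [Complex.normSq_eq_norm_sq]
      exact pow_lt_one₀ (norm_nonneg _) h2 two_ne_zero
    rw [Complex.normSq_apply] at h5 ⊢
    simp only [Complex.sub_re, Complex.one_re, Complex.sub_im, Complex.one_im, sub_zero] at h5
    nlinarith
  have h2 := Complex.norm_le_of_forall_mem_frontier_norm_le Metric.isBounded_ball hd hb
    (subset_closure (Metric.mem_ball_self (by norm_num : (0 : ℝ) < 1 / 2)))
  have h3 : F 0 = 1 := by rw [hF]; simp
  rw [h3, norm_one] at h2
  have h4 : Real.exp (-(1 / 2)) < 1 := by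
    rw [Real.exp_lt_one_iff]; norm_num
  linarith

variable (p) in
/-- The main quantitative statement: the average of the coordinate vectors is far from elements
with small inverses. -/
theorem no_inverse (C : ℝ) (hC : 1 ≤ C) : ∃ N : ℕ, ∀ x y : V p N → ℂ,
    ∑ g, ‖x g‖ ≤ C → ∑ g, ‖y g‖ ≤ C →
    (∀ F : V p N → ℂ, ∑ g, ∑ h, x g * y h * F (g + h) = F 0) →
    (∀ F : V p N → ℂ, (∀ v, ‖F v‖ ≤ 1) →
      ‖∑ g, x g * F g - (1 / (N : ℂ)) * ∑ j : Fin N, F (Pi.single j 1)‖ ≤ 1 / 4) → False := by
  classical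
  obtain ⟨k, hk⟩ := pow_unbounded_of_one_lt (32 * C ^ 2) (one_lt_two)
  set M : ℕ := 8 * k + 1 with hM
  set D : ℝ := C * (2 * k * 4 ^ k) + 2 * C * (M + 1) + 1 with hD
  have hD0 : 0 < D := by positivity
  set η : ℝ := 1 / (16 * D) with hη
  have hη0 : 0 < η := by positivity
  obtain ⟨N, hN⟩ := exists_nat_gt (32 * C / η)
  have hN0 : (0 : ℝ) < N := lt_of_le_of_lt (by positivity) hN
  refine ⟨N, fun x y hx hy hxy hclose => ?_⟩
  obtain ⟨⟨J, S⟩, hmax⟩ := exists_max (fun v : V p N => ‖x v‖ + ‖y v‖) M η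
  have hμ : ∀ v : V p N, 0 ≤ ‖x v‖ + ‖y v‖ := fun v => by positivity
  have herr := total_error (k := k) hη0 (show 8 * k ≤ M by omega) (fun v => norm_nonneg (x v))
    (fun v => norm_nonneg (y v)) hmax hx hy
  have hκ : C * (2 * k * 4 ^ k * η) + 2 * (C * (η * (M + 1) + C * (1 / 2) ^ k)) ≤ 1 / 8 := by
    have e1 : η * D = 1 / 16 := by rw [hη]; field_simp
    have e2 : C * (2 * k * 4 ^ k * η) + 2 * (C * (η * (M + 1))) ≤ 1 / 16 := by
      rw [← e1, hD]
      have : η * (C * (2 * k * 4 ^ k) + 2 * C * (M + 1) + 1)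
        = C * (2 * k * 4 ^ k * η) + 2 * (C * (η * (M + 1))) + η := by ring
      rw [this]; linarith
    have e3 : 2 * (C * (C * (1 / 2) ^ k)) ≤ 1 / 16 := by
      have e4 : (1 / 2 : ℝ) ^ k = 1 / 2 ^ k := by rw [one_div_pow]
      rw [e4]
      have e5 : 2 * (C * (C * (1 / 2 ^ k))) = (2 * C ^ 2) / 2 ^ k := by ring
      rw [e5, div_le_iff₀ (by positivity)]
      linarith
    linarith
  have herr2 := herr.trans hκ
  -- the polynomials
  set P : ℂ → ℂ := fun z => ∑ g, x g * z ^ dst J S g with hP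
  set Q : ℂ → ℂ := fun z => ∑ h, y h * z ^ dst J S h with hQ
  have hPd : Differentiable ℂ P := by
    apply Differentiable.fun_sum
    intro g _
    fun_prop
  have hmul : ∀ z : ℂ, ‖z‖ ≤ 1 / 2 → ‖P z * Q z - 1‖ ≤ 1 / 4 := by
    intro z hz
    have e1 : P z * Q z = ∑ g, ∑ h, x g * y h * z ^ (dst J S g + dst J S h) := by
      rw [hP, hQ, sum_mul_sum]
      refine sum_congr rfl (fun g _ => sum_congr rfl (fun h _ => ?_))
      rw [pow_add]; ring
    have e2 := hxy (fun v => z ^ dst J S v)
    simp only [dst_zero, pow_zero] at e2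
    rw [e1, ← e2, ← sum_sub_distrib]
    simp only [← sum_sub_distrib]
    refine (norm_sum_le _ _).trans ?_
    have e3 : ∀ g h, ‖x g * y h * z ^ (dst J S g + dst J S h) - x g * y h * z ^ dst J S (g + h)‖
        ≤ 2 * (‖x g‖ * ‖y h‖ * BB J S g h) := by
      intro g h
      rw [← mul_sub, norm_mul, norm_mul]
      unfold BB
      split_ifs with he
      · simp [he]
      · have hle := dst_add (J := J) (S := S) g h
        have e4 : ∀ n, ‖z ^ n‖ ≤ (1 / 2) ^ n := fun n => by
          rw [norm_pow]; exact pow_le_pow_left₀ (norm_nonneg _) hz n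
        have e5 : ‖z ^ (dst J S g + dst J S h) - z ^ dst J S (g + h)‖
            ≤ 2 * (1 / 2) ^ dst J S (g + h) := by
          refine (norm_sub_le _ _).trans ?_
          have e6 := e4 (dst J S g + dst J S h)
          have e7 := e4 (dst J S (g + h))
          have e8 := half_pow_le hle
          linarith
        have e6 := mul_le_mul_of_nonneg_left e5
          (mul_nonneg (norm_nonneg (x g)) (norm_nonneg (y h)))
        linarith
    calc ∑ g, ‖∑ h, (x g * y h * z ^ (dst J S g + dst J S h)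
          - x g * y h * z ^ dst J S (g + h))‖
        ≤ ∑ g, ∑ h, 2 * (‖x g‖ * ‖y h‖ * BB J S g h) :=
          sum_le_sum (fun g _ => (norm_sum_le _ _).trans (sum_le_sum (fun h _ => e3 g h)))
      _ = 2 * ∑ g, ∑ h, ‖x g‖ * ‖y h‖ * BB J S g h := by
          rw [mul_sum]
          exact sum_congr rfl (fun g _ => by rw [mul_sum])
      _ ≤ 1 / 4 := by linarith
  have hP0 : ∀ z, ‖z‖ ≤ 1 / 2 → P z ≠ 0 := by
    intro z hz h
    have := hmul z hz
    rw [h, zero_mul, zero_sub, norm_neg, norm_one] at this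
    norm_num at this
  have hJ : 2 * (J.card : ℝ) / N ≤ 1 / 8 := by
    have e1 := card_J_le hμ hη0 hmax
    have e2 : ∑ v : V p N, (‖x v‖ + ‖y v‖) ≤ 2 * C := by
      rw [sum_add_distrib]; linarith
    rw [div_le_iff₀ hN0]
    have e3 : 32 * C < N * η := by rwa [div_lt_iff₀ hη0] at hN
    have e4 : η * (2 * (J.card : ℝ)) ≤ η * (1 / 8 * N) := by nlinarith
    exact le_of_mul_le_mul_left e4 hη0
  have hunit : ∀ j : Fin N, j ∉ J → dst J S (Pi.single j 1 : V p N) = 1 := by
    intro j hj
    have hwt : wt J (Pi.single j 1 : V p N) ≤ 1 := by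
      unfold wt
      have : univ.filter (fun i => i ∉ J ∧ (Pi.single j 1 : V p N) i ≠ 0) ⊆ {j} := by
        intro i hi
        simp only [mem_filter, mem_univ, true_and] at hi
        rw [mem_singleton]
        by_contra hij
        exact hi.2 (Pi.single_eq_of_ne hij 1)
      exact (card_le_card this).trans (card_singleton j).le
    refine le_antisymm ((dst_le_wt _).trans hwt) ?_
    by_contra hcon
    have h0 : dst J S (Pi.single j 1 : V p N) = 0 := by omega
    have h1 := near_wt (J := J) (S := S) (Pi.single j 1 : V p N)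
    rw [h0] at h1
    set l := near J S (Pi.single j 1 : V p N) with hl
    have h2 : wt J l ≤ M := by
      have e1 : l = Pi.single j 1 + (-((Pi.single j 1 : V p N) - l)) := by abel
      rw [e1]
      have e2 := wt_add J (Pi.single j 1 : V p N) (-((Pi.single j 1 : V p N) - l))
      rw [wt_neg, h1] at e2
      omega
    have h3 := span_small hμ hη0 hmax (near_mem _) h2
    have hl0 : l = 0 := h3
    rw [hl0, sub_zero] at h1
    have h4 : j ∈ univ.filter (fun i => i ∉ J ∧ (Pi.single j 1 : V p N) i ≠ 0) := by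
      simp [hj]
    have h5 : 0 < wt J (Pi.single j 1 : V p N) := card_pos.2 ⟨j, h4⟩
    omega
  refine rouche P hPd hP0 (fun z hz => ?_)
  have hz1 : ‖z‖ ≤ 1 := by rw [hz]; norm_num
  have e1 := hclose (fun v => z ^ dst J S v) (fun v => by
    rw [norm_pow]; exact pow_le_one₀ (norm_nonneg _) hz1)
  have e2 : ‖(1 / (N : ℂ)) * ∑ j : Fin N, z ^ dst J S (Pi.single j 1 : V p N) - z‖ ≤ 1 / 8 := by
    have hNc : (N : ℂ) ≠ 0 := by exact_mod_cast hN0.ne'
    have e3 : (1 / (N : ℂ)) * ∑ j : Fin N, z ^ dst J S (Pi.single j 1 : V p N) - z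
        = (1 / (N : ℂ)) * ∑ j : Fin N, (z ^ dst J S (Pi.single j 1 : V p N) - z) := by
      rw [sum_sub_distrib, mul_sub]
      simp only [sum_const, card_univ, Fintype.card_fin, nsmul_eq_mul]
      field_simp
    rw [e3, norm_mul, norm_div, norm_one, Complex.norm_natCast]
    have e4 : ‖∑ j : Fin N, (z ^ dst J S (Pi.single j 1 : V p N) - z)‖ ≤ 2 * J.card := by
      calc ‖∑ j : Fin N, (z ^ dst J S (Pi.single j 1 : V p N) - z)‖
          ≤ ∑ j : Fin N, ‖z ^ dst J S (Pi.single j 1 : V p N) - z‖ := norm_sum_le _ _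
        _ ≤ ∑ j : Fin N, if j ∈ J then (2 : ℝ) else 0 := by
            refine sum_le_sum (fun j _ => ?_)
            split_ifs with hj
            · refine (norm_sub_le _ _).trans ?_
              have : ‖z ^ dst J S (Pi.single j 1 : V p N)‖ ≤ 1 := by
                rw [norm_pow]; exact pow_le_one₀ (norm_nonneg _) hz1
              linarith
            · rw [hunit j hj, pow_one, sub_self, norm_zero]
        _ = 2 * J.card := by
            rw [← sum_filter, sum_const, nsmul_eq_mul, mul_comm]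
            congr 2
            simp
    calc 1 / (N : ℝ) * ‖∑ j : Fin N, (z ^ dst J S (Pi.single j 1 : V p N) - z)‖
        ≤ 1 / (N : ℝ) * (2 * J.card) := mul_le_mul_of_nonneg_left e4 (by positivity)
      _ = 2 * (J.card : ℝ) / N := by ring
      _ ≤ 1 / 8 := hJ
  have e3 := norm_sub_le_norm_sub_add_norm_sub (P z)
    ((1 / (N : ℂ)) * ∑ j : Fin N, z ^ dst J S (Pi.single j 1 : V p N)) z
  have e4 : ‖P z - (1 / (N : ℂ)) * ∑ j : Fin N, z ^ dst J S (Pi.single j 1 : V p N)‖ ≤ 1 / 4 := e1
  linarith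

end

end Pool.Agent.V1192.UOD
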