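import Pool.Agent.V1192.UOA
import Pool.Agent.V1192.UOD

/-!
# Bounded exponent groups and the reduction to elementary abelian groups
-/

open Filter Topology Pool.Agent.V1192.GA Metric Finset

namespace Pool.Agent.V1192.UOC

section Grp

/-- Infinite vector spaces over a finite field map onto coordinate spaces. -/
theorem exists_coord (K W : Type) [Field K] [Finite K] [AddCommGroup W] [Module K W] [Infinite W]
    (N : ℕ) : ∃ f : W → (Fin N → K), (∀ v w, f (v + w) = f v + f w) ∧
      ∃ t : Fin N → W, ∀ j, f (t j) = Pi.single j 1 := by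
  classical
  have hinf2 : Infinite (Module.Basis.ofVectorSpaceIndex K W) := by
    by_contra hcon
    rw [not_infinite_iff_finite] at hcon
    have h1 : Finite W := by
      have := Fintype.ofFinite (Module.Basis.ofVectorSpaceIndex K W)
      exact Finite.of_equiv _ (Module.Basis.ofVectorSpace K W).equivFun.toEquiv.symm
    exact not_finite W
  obtain ⟨f⟩ : Nonempty (Fin N ↪ Module.Basis.ofVectorSpaceIndex K W) :=
    ⟨Fin.valEmbedding.trans (Infinite.natEmbedding _)⟩
  refine ⟨fun w j => (Module.Basis.ofVectorSpace K W).coord (f j) w, fun v w => ?_,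
    fun j => Module.Basis.ofVectorSpace K W (f j), fun j => ?_⟩
  · ext j
    exact map_add ((Module.Basis.ofVectorSpace K W).coord (f j)) v w
  · ext i
    simp only
    rw [Module.Basis.coord_apply, Module.Basis.repr_self]
    by_cases hij : i = j
    · subst hij
      rw [Finsupp.single_eq_same, Pi.single_eq_same]
    · rw [Pi.single_eq_of_ne hij, Finsupp.single_eq_of_ne]
      exact fun h => hij (f.injective h)

/-- An infinite abelian group of bounded exponent maps onto arbitrarily large elementary abelian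
`p`-groups, for some fixed `p`. -/
theorem exists_maps (G : Type) [CommGroup G] [Infinite G] (n : ℕ) (hn : 0 < n)
    (hG : ∀ g : G, g ^ n = 1) :
    ∃ p : ℕ, p.Prime ∧ ∀ N : ℕ, ∃ ψ : G → (Fin N → ZMod p), (∀ g h, ψ (g * h) = ψ g + ψ h) ∧
      ∃ t : Fin N → G, ∀ j, ψ (t j) = Pi.single j 1 := by
  classical
  have hex : ∃ d : ℕ, 0 < d ∧ ((powMonoidHom d : G →* G).range : Set G).Finite := by
    refine ⟨n, hn, (Set.finite_singleton (1 : G)).subset ?_⟩
    rintro _ ⟨g, rfl⟩
    exact hG g
  obtain ⟨hd0, hdfin⟩ := Nat.find_spec hex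
  set d := Nat.find hex with hd
  have hmin : ∀ m, 0 < m → m < d → ¬ ((powMonoidHom m : G →* G).range : Set G).Finite :=
    fun m hm0 hm h => Nat.find_min hex hm ⟨hm0, h⟩
  have hd1 : d ≠ 1 := by
    intro h
    have : ((powMonoidHom d : G →* G).range : Set G) = Set.univ := by
      ext g
      simp only [SetLike.mem_coe, MonoidHom.mem_range, powMonoidHom_apply, Set.mem_univ, iff_true]
      exact ⟨g, by rw [h, pow_one]⟩
    rw [this] at hdfin
    exact Set.infinite_univ hdfin
  set p := d.minFac with hp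
  have hpp : p.Prime := Nat.minFac_prime hd1
  obtain ⟨k, hk⟩ : ∃ k, d = p * k := Nat.minFac_dvd d
  have hk0 : 0 < k := by
    rcases Nat.eq_zero_or_pos k with h | h
    · rw [h, mul_zero] at hk; omega
    · exact h
  have hkd : k < d := by
    rw [hk]
    exact lt_mul_of_one_lt_left hk0 hpp.one_lt
  have hkinf := hmin k hk0 hkd
  set K : Subgroup G := (powMonoidHom d : G →* G).range.comap (powMonoidHom k) with hK
  have hfact : Fact p.Prime := ⟨hpp⟩
  refine ⟨p, hpp, fun N => ?_⟩
  -- the quotient is infinite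
  have hinf : Infinite (G ⧸ K) := by
    by_contra hcon
    rw [not_infinite_iff_finite] at hcon
    apply hkinf
    have hf2 : Finite ((powMonoidHom d : G →* G).range : Set G) := hdfin
    have : ((powMonoidHom k : G →* G).range : Set G) ⊆
        Set.range (fun q : (G ⧸ K) × ((powMonoidHom d : G →* G).range : Set G) =>
          (q.1.out) ^ k * (q.2 : G)) := by
      rintro _ ⟨g, rfl⟩
      have h1 : ((QuotientGroup.mk g : G ⧸ K).out)⁻¹ * g ∈ K := by
        rw [← QuotientGroup.eq]
        exact Quotient.out_eq' (QuotientGroup.mk g : G ⧸ K)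
      refine ⟨(QuotientGroup.mk g, ⟨_, h1⟩), ?_⟩
      simp only [powMonoidHom_apply]
      rw [mul_pow, inv_pow, mul_inv_cancel_left]
    exact (Set.finite_range _).subset this
  have htor : ∀ w : Additive (G ⧸ K), p • w = 0 := by
    intro w
    obtain ⟨g, hg⟩ := QuotientGroup.mk_surjective (Additive.toMul w)
    apply Additive.toMul.injective
    rw [toMul_nsmul, ← hg, ← QuotientGroup.mk_pow, toMul_zero]
    rw [QuotientGroup.eq_one_iff, hK, Subgroup.mem_comap, MonoidHom.mem_range]
    exact ⟨g, by rw [powMonoidHom_apply, powMonoidHom_apply, ← pow_mul, hk]⟩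
  let _ : Module (ZMod p) (Additive (G ⧸ K)) := AddCommGroup.zmodModule htor
  have : NeZero p := ⟨hpp.ne_zero⟩
  have hinf3 : Infinite (Additive (G ⧸ K)) := hinf
  obtain ⟨f, hf, t, ht⟩ := exists_coord (ZMod p) (Additive (G ⧸ K)) N
  have ht2 : ∀ j, ∃ g : G, Additive.ofMul (QuotientGroup.mk g : G ⧸ K) = t j := fun j => by
    obtain ⟨g, hg⟩ := QuotientGroup.mk_surjective (Additive.toMul (t j))
    exact ⟨g, by rw [hg]; rfl⟩
  choose s hs using ht2
  refine ⟨fun g => f (Additive.ofMul (QuotientGroup.mk g : G ⧸ K)), ?_, s, ?_⟩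
  · intro g h
    simp only
    rw [QuotientGroup.mk_mul, ofMul_mul, hf]
  · intro j
    simp only
    rw [hs, ht]

end Grp

section Push

variable {G : Type} [Group G] {V : Type} [AddCommGroup V] [Fintype V] (ψ : G → V)

/-- The functional on `ℓ¹(G)` given by a function on the quotient. -/
noncomputable def LF (F : V → ℂ) : GA G →L[ℂ] ℂ :=
  ga_lift (fun g => F (ψ g)) (∑ v, ‖F v‖)
    (fun g => single_le_sum (f := fun v => ‖F v‖) (fun _ _ => norm_nonneg _) (mem_univ (ψ g)))

theorem LF_pt (F : V → ℂ) (g : G) : LF ψ F (pt g) = F (ψ g) := ga_lift_pt _ _ _ _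

theorem norm_LF_le (F : V → ℂ) (hF : ∀ v, ‖F v‖ ≤ 1) (a : GA G) : ‖LF ψ F a‖ ≤ ‖a‖ := by
  have h : ‖LF ψ F‖ ≤ 1 := ga_norm zero_le_one (fun i => by rw [LF_pt]; exact hF _)
  have h2 := (LF ψ F).le_opNorm a
  nlinarith [norm_nonneg a]

open Classical in
/-- The mass of a fibre. -/
noncomputable def fib (a : GA G) (v : V) : ℂ := LF ψ (Pi.single v 1) a

theorem sum_fib (F : V → ℂ) (a : GA G) : ∑ v, fib ψ a v * F v = LF ψ F a := by
  classical
  have h : ∑ v, (F v) • LF ψ (Pi.single v 1) = LF ψ F := by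
    refine ga_ext (fun g => ?_)
    rw [LF_pt, _root_.sum_apply, Finset.sum_eq_single (ψ g)]
    · rw [smul_apply, LF_pt, Pi.single_eq_same, smul_eq_mul, mul_one]
    · intro v _ hv
      rw [smul_apply, LF_pt, Pi.single_eq_of_ne (Ne.symm hv), smul_zero]
    · intro h; exact absurd (mem_univ _) h
  rw [← h, _root_.sum_apply]
  refine Finset.sum_congr rfl (fun v _ => ?_)
  rw [smul_apply, smul_eq_mul, mul_comm]
  congr 1

theorem sum_norm_fib (a : GA G) : ∑ v, ‖fib ψ a v‖ ≤ ‖a‖ := by
  set F : V → ℂ := fun v => if fib ψ a v = 0 then 0 else (‖fib ψ a v‖ : ℂ) / fib ψ a v with hF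
  have hF1 : ∀ v, ‖F v‖ ≤ 1 := by
    intro v
    rw [hF]
    simp only
    split_ifs with h
    · simp
    · rw [norm_div, Complex.norm_real, norm_norm, div_self (norm_ne_zero_iff.2 h)]
  have h1 := norm_LF_le ψ F hF1 a
  rw [← sum_fib] at h1
  have h2 : ∑ v, fib ψ a v * F v = ((∑ v, ‖fib ψ a v‖ : ℝ) : ℂ) := by
    push_cast
    refine Finset.sum_congr rfl (fun v _ => ?_)
    rw [hF]
    simp only
    split_ifs with h
    · simp [h]
    · field_simp
  rw [h2, Complex.norm_real, Real.norm_of_nonneg (Finset.sum_nonneg (fun _ _ => norm_nonneg _))]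
    at h1
  exact h1

theorem LF_mul (hψ : ∀ g h, ψ (g * h) = ψ g + ψ h) (F : V → ℂ) (a b : GA G) :
    ∑ g, ∑ h, fib ψ a g * fib ψ b h * F (g + h) = LF ψ F (a * b) := by
  classical
  have h1 : ∀ h : G, ∀ a : GA G, LF ψ F (a * pt h) = LF ψ (fun v => F (v + ψ h)) a := by
    intro h a
    have : (LF ψ F).comp ((ContinuousLinearMap.mul ℂ (GA G)).flip (pt h))
        = LF ψ (fun v => F (v + ψ h)) := by
      refine ga_ext (fun g => ?_)
      change LF ψ F (pt g * pt h) = _
      rw [pt_mul, LF_pt, LF_pt, hψ]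
    exact DFunLike.congr_fun this a
  have h2 : (LF ψ F).comp (ContinuousLinearMap.mul ℂ (GA G) a)
      = ∑ h : V, (LF ψ (fun v => F (v + h)) a) • LF ψ (Pi.single h 1) := by
    refine ga_ext (fun g => ?_)
    change LF ψ F (a * pt g) = _
    rw [h1, _root_.sum_apply, Finset.sum_eq_single (ψ g)]
    · rw [smul_apply, LF_pt, Pi.single_eq_same, smul_eq_mul, mul_one]
    · intro v _ hv
      rw [smul_apply, LF_pt, Pi.single_eq_of_ne (Ne.symm hv), smul_zero]
    · intro h; exact absurd (mem_univ _) h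
  have h3 := DFunLike.congr_fun h2 b
  change LF ψ F (a * b) = _ at h3
  rw [h3, _root_.sum_apply, Finset.sum_comm]
  refine Finset.sum_congr rfl (fun h _ => ?_)
  rw [smul_apply, smul_eq_mul, ← sum_fib, Finset.sum_mul]
  refine Finset.sum_congr rfl (fun g _ => ?_)
  have : fib ψ b h = (LF ψ (Pi.single h 1)) b := by
    unfold fib
    congr!
  rw [this]
  ring

end Push

/-- The abelian case. -/
theorem not_unif_comm (G : Type) [Group G] [Infinite G] (hc : ∀ x y : G, x * y = y * x) (n : ℕ)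
    (hn : 0 < n) (hG : ∀ g : G, g ^ n = 1) : ¬ UO.UnifOpenMul (GA G) := by
  intro hA
  let _ : CommGroup G := { ‹Group G› with mul_comm := hc }
  obtain ⟨p, hp, hmaps⟩ := exists_maps G n hn hG
  have : Fact p.Prime := ⟨hp⟩
  obtain ⟨δ, hδ, hopen⟩ := hA (1 / 4) (by norm_num)
  set C : ℝ := 2 + 1 / (2 * δ) with hC
  have hC1 : 1 ≤ C := by
    have : 0 < 1 / (2 * δ) := by positivity
    linarith
  obtain ⟨N, hN⟩ := UOD.no_inverse p C hC1
  obtain ⟨ψ, hψ, t, ht⟩ := hmaps N
  set a : GA G := (1 / (N : ℂ)) • ∑ j, pt (t j) with ha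
  have hna : ‖a‖ ≤ 1 := by
    rw [ha, norm_smul, norm_div, norm_one, Complex.norm_natCast]
    have h1 : ‖∑ j, pt (t j)‖ ≤ N := by
      refine (norm_sum_le _ _).trans ?_
      simp [norm_pt]
    rcases Nat.eq_zero_or_pos N with h0 | h0
    · subst h0; simp
    · have h2 : (0 : ℝ) < N := by exact_mod_cast h0
      rw [div_mul_eq_mul_div, one_mul, div_le_one h2]
      exact h1
  obtain ⟨x, hx, y, hy, hxy⟩ := hopen a 0 (((δ / 2 : ℝ) : ℂ) • (1 : GA G)) (by
    rw [mul_zero, mem_ball_zero_iff, norm_smul, Complex.norm_real, ← pt_one, norm_pt, mul_one,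
      Real.norm_of_nonneg (by positivity)]
    linarith)
  rw [mem_ball, dist_eq_norm] at hx
  rw [mem_ball_zero_iff] at hy
  have hnx : ‖x‖ ≤ C := by
    have h1 : ‖x‖ ≤ ‖x - a‖ + ‖a‖ := by
      have := norm_add_le (x - a) a
      rwa [sub_add_cancel] at this
    have : 0 < 1 / (2 * δ) := by positivity
    linarith
  refine hN (fib ψ x) (fun v => ((2 / δ : ℝ) : ℂ) * fib ψ y v)
    ((sum_norm_fib ψ x).trans hnx) ?_ ?_ ?_
  · simp only [norm_mul]
    rw [← Finset.mul_sum, Complex.norm_real, Real.norm_of_nonneg (by positivity)]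
    have h1 := sum_norm_fib ψ y
    calc 2 / δ * ∑ v, ‖fib ψ y v‖ ≤ 2 / δ * (1 / 4) :=
          mul_le_mul_of_nonneg_left (h1.trans hy.le) (by positivity)
      _ = 1 / (2 * δ) := by field_simp; norm_num
      _ ≤ C := by linarith
  · intro F
    have h1 := LF_mul ψ hψ F x y
    have h2 : ∑ g, ∑ h, fib ψ x g * (((2 / δ : ℝ) : ℂ) * fib ψ y h) * F (g + h)
        = ((2 / δ : ℝ) : ℂ) * ∑ g, ∑ h, fib ψ x g * fib ψ y h * F (g + h) := by
      rw [Finset.mul_sum]
      refine Finset.sum_congr rfl (fun g _ => ?_)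
      rw [Finset.mul_sum]
      refine Finset.sum_congr rfl (fun h _ => ?_)
      ring
    have hψ1 : ψ 1 = 0 := by
      have := hψ 1 1
      rw [mul_one] at this
      simpa using this
    rw [h2, h1, hxy, map_smul, ← pt_one, LF_pt, hψ1, smul_eq_mul, ← mul_assoc,
      ← Complex.ofReal_mul]
    have : 2 / δ * (δ / 2) = 1 := by field_simp
    rw [this, Complex.ofReal_one, one_mul]
  · intro F hF
    have h1 : LF ψ F a = (1 / (N : ℂ)) * ∑ j : Fin N, F (Pi.single j 1) := by
      rw [ha, map_smul, map_sum, smul_eq_mul]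
      congr 1
      refine Finset.sum_congr rfl (fun j _ => ?_)
      rw [LF_pt, ht]
    rw [sum_fib, ← h1, ← map_sub]
    exact (norm_LF_le ψ F hF _).trans hx.le

/-- `ℓ¹(G)` does not have uniformly open multiplication for infinite `G` of bounded exponent. -/
theorem not_unif (G : Type) [Group G] [Infinite G] (n : ℕ)
    (hn : 0 < n) (hG : ∀ g : G, g ^ n = 1) : ¬ UO.UnifOpenMul (GA G) := by
  intro hA
  refine not_unif_comm G (fun x y => ?_) n hn hG hA
  refine (UO.comm_of_central (UO.idem_central hA) x y ?_).symm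
  intro h
  rw [orderOf_eq_zero_iff'] at h
  exact h n hn (hG x)

end Pool.Agent.V1192.UOC
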