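import Pool.Agent.V1192.UOC

/-!
# Uniform openness of convolution, in concrete terms
-/

open Pool.Agent.V1192.GA Metric

namespace Pool.Agent.V1192.UOE

variable {G : Type} [Group G]

/-- The convolution of two absolutely summable functions is absolutely summable. -/
theorem conv_mem (a b : lp (fun _ : G => ℂ) 1) :
    Memℓp (fun x : G => ∑' y : G, a y * b (y⁻¹ * x)) 1 := by
  have h : (fun x : G => ∑' y : G, a y * b (y⁻¹ * x))
      = L1.co ((show GA G from a) * (show GA G from b) : GA G) := by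
    funext x
    exact (val_mul (show GA G from a) (show GA G from b) x).symm
  rw [h]
  exact lp.memℓp (show lp (fun _ : G => ℂ) 1 from
    ((show GA G from a) * (show GA G from b) : GA G))

/-- Convolution on `ℓ¹(G)`. -/
noncomputable def conv (a b : lp (fun _ : G => ℂ) 1) : lp (fun _ : G => ℂ) 1 :=
  ⟨fun x : G => ∑' y : G, a y * b (y⁻¹ * x), conv_mem a b⟩

theorem conv_eq (a b : GA G) : conv (G := G) a b = (a * b : GA G) := by
  apply Subtype.ext
  funext x
  exact (val_mul a b x).symm

variable (G) in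
/-- The convolution algebra `ℓ¹(G)` has uniformly open multiplication. -/
def UnifOpenConv : Prop :=
  ∀ ε > 0, ∃ δ > 0, ∀ a b w : lp (fun _ : G => ℂ) 1, w ∈ ball (conv a b) δ →
    ∃ x ∈ ball a ε, ∃ y ∈ ball b ε, conv x y = w

theorem unif_of_conv (h : UnifOpenConv G) : UO.UnifOpenMul (GA G) := by
  intro ε hε
  obtain ⟨δ, hδ, H⟩ := h ε hε
  refine ⟨δ, hδ, fun a b w hw => ?_⟩
  rw [mem_ball, dist_eq_norm] at hw
  obtain ⟨x, hx, y, hy, hxy⟩ := H a b w (by
    rw [mem_ball, dist_eq_norm, conv_eq]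
    exact hw)
  refine ⟨x, ?_, y, ?_, ?_⟩
  · rw [mem_ball, dist_eq_norm] at hx ⊢
    exact hx
  · rw [mem_ball, dist_eq_norm] at hy ⊢
    exact hy
  · rw [← hxy, conv_eq]

end Pool.Agent.V1192.UOE
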